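import Mathlib

set_option autoImplicit false

open Complex Set

namespace Pool.Agent.N283.QL

/-- the contraction ratio -/
noncomputable def th : ℝ := 1 / 100000000

/-- cutoff times exponential -/
noncomputable def psi (x : ℝ) : ℝ := 1 / 50 * (max 0 (min 1 (2 - 2 * |x|)) * Real.exp (min x 1))

/-- the wiggle map -/
noncomputable def h (z : ℂ) : ℂ := z + (psi z.re : ℂ) * Complex.exp (z.im * I)

lemma th_pos : 0 < th := by unfold th; norm_num

lemma chi_nonneg (x : ℝ) : 0 ≤ max 0 (min 1 (2 - 2 * |x|)) := le_max_left _ _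

lemma chi_le_one (x : ℝ) : max 0 (min 1 (2 - 2 * |x|)) ≤ 1 :=
  max_le zero_le_one (min_le_left _ _)

lemma chi_lip (x y : ℝ) :
    |max 0 (min 1 (2 - 2 * |x|)) - max 0 (min 1 (2 - 2 * |y|))| ≤ 2 * |x - y| := by
  have h1 : |max 0 (min 1 (2 - 2 * |x|)) - max 0 (min 1 (2 - 2 * |y|))| ≤
      |min 1 (2 - 2 * |x|) - min 1 (2 - 2 * |y|)| := by
    rw [max_comm 0, max_comm 0]
    exact abs_max_sub_max_le_abs _ _ _
  have h2 : |min 1 (2 - 2 * |x|) - min 1 (2 - 2 * |y|)| ≤ |(2 - 2 * |x|) - (2 - 2 * |y|)| := by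
    rw [min_comm 1, min_comm 1]
    have := abs_min_sub_min_le_max (2 - 2 * |x|) 1 (2 - 2 * |y|) 1
    simpa using this
  have h3 : |(2 - 2 * |x|) - (2 - 2 * |y|)| = 2 * |(|x| - |y|)| := by
    rw [show (2 - 2 * |x|) - (2 - 2 * |y|) = -(2 * (|x| - |y|)) by ring, abs_neg, abs_mul]
    norm_num
  have h4 : |(|x| - |y|)| ≤ |x - y| := abs_abs_sub_abs_le_abs_sub x y
  linarith

lemma e_lt : Real.exp 1 < 2.7183 := by
  have := Real.exp_one_lt_d9; linarith

lemma E_le (x : ℝ) : Real.exp (min x 1) ≤ 2.7183 := by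
  have : Real.exp (min x 1) ≤ Real.exp 1 := Real.exp_le_exp.2 (min_le_right _ _)
  linarith [e_lt]

lemma exp_sub_le {s t : ℝ} (hst : s ≤ t) (ht : t ≤ 1) :
    Real.exp t - Real.exp s ≤ 2.7183 * (t - s) := by
  have h1 : Real.exp s = Real.exp t * Real.exp (s - t) := by rw [← Real.exp_add]; congr 1; ring
  have h2 : 1 + (s - t) ≤ Real.exp (s - t) := by linarith [Real.add_one_le_exp (s - t)]
  have h3 : Real.exp t ≤ 2.7183 := by
    have : Real.exp t ≤ Real.exp 1 := Real.exp_le_exp.2 ht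
    linarith [e_lt]
  have h4 : 0 < Real.exp t := Real.exp_pos t
  nlinarith

lemma E_lip (x y : ℝ) : |Real.exp (min x 1) - Real.exp (min y 1)| ≤ 2.7183 * |x - y| := by
  have key : ∀ s t : ℝ, s ≤ 1 → t ≤ 1 → |Real.exp s - Real.exp t| ≤ 2.7183 * |s - t| := by
    intro s t hs ht
    rcases le_total s t with hst | hst
    · rw [abs_sub_comm, abs_of_nonneg (sub_nonneg.2 (Real.exp_le_exp.2 hst)), abs_sub_comm,
        abs_of_nonneg (sub_nonneg.2 hst)]
      exact exp_sub_le hst ht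
    · rw [abs_of_nonneg (sub_nonneg.2 (Real.exp_le_exp.2 hst)), abs_of_nonneg (sub_nonneg.2 hst)]
      exact exp_sub_le hst hs
  refine (key _ _ (min_le_right _ _) (min_le_right _ _)).trans ?_
  have := abs_min_sub_min_le_max x 1 y 1
  simp only [sub_self, abs_zero, max_eq_left (abs_nonneg (x - y))] at this
  linarith

lemma psi_nonneg (x : ℝ) : 0 ≤ psi x := by
  unfold psi
  have := chi_nonneg x
  have := Real.exp_pos (min x 1)
  positivity

lemma psi_le (x : ℝ) : psi x ≤ 1 / 18 := by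
  unfold psi
  have h1 := chi_nonneg x
  have h2 := chi_le_one x
  have h3 := E_le x
  have h4 := Real.exp_pos (min x 1)
  have : max 0 (min 1 (2 - 2 * |x|)) * Real.exp (min x 1) ≤ 1 * 2.7183 :=
    mul_le_mul h2 h3 h4.le zero_le_one
  linarith

lemma psi_lip (x y : ℝ) : |psi x - psi y| ≤ 33 / 200 * |x - y| := by
  unfold psi
  set cx := max 0 (min 1 (2 - 2 * |x|)) with hcx
  set cy := max 0 (min 1 (2 - 2 * |y|)) with hcy
  have h0 : 1 / 50 * (cx * Real.exp (min x 1)) - 1 / 50 * (cy * Real.exp (min y 1)) =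
      1 / 50 * ((cx - cy) * Real.exp (min x 1) + cy * (Real.exp (min x 1) - Real.exp (min y 1))) := by
    ring
  rw [h0, abs_mul]
  have h1 : |cx - cy| ≤ 2 * |x - y| := chi_lip x y
  have h2 := E_lip x y
  have h3 := E_le x
  have h4 := Real.exp_pos (min x 1)
  have h5 : 0 ≤ cy := chi_nonneg y
  have h6 : cy ≤ 1 := chi_le_one y
  have h7 : |(cx - cy) * Real.exp (min x 1) + cy * (Real.exp (min x 1) - Real.exp (min y 1))| ≤
      |(cx - cy)| * Real.exp (min x 1) + cy * |Real.exp (min x 1) - Real.exp (min y 1)| := by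
    refine (abs_add_le _ _).trans ?_
    rw [abs_mul, abs_mul, abs_of_pos h4, abs_of_nonneg h5]
  have h8 : |(cx - cy)| * Real.exp (min x 1) ≤ (2 * |x - y|) * 2.7183 :=
    mul_le_mul h1 h3 h4.le (by positivity)
  have h9 : cy * |Real.exp (min x 1) - Real.exp (min y 1)| ≤ 1 * (2.7183 * |x - y|) :=
    mul_le_mul h6 h2 (abs_nonneg _) zero_le_one
  have h10 : |(1 / 50 : ℝ)| = 1 / 50 := abs_of_pos (by norm_num)
  rw [h10]
  have := abs_nonneg (x - y)
  linarith

lemma norm_exp_im (y : ℝ) : ‖Complex.exp (y * I)‖ = 1 := Complex.norm_exp_ofReal_mul_I y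

lemma exp_im_lip (x y : ℝ) : ‖Complex.exp (x * I) - Complex.exp (y * I)‖ ≤ |x - y| := by
  have h1 : Complex.exp (x * I) - Complex.exp (y * I) =
      Complex.exp (y * I) * (Complex.exp (I * ((x - y : ℝ) : ℂ)) - 1) := by
    rw [mul_sub, ← Complex.exp_add, mul_one]
    congr 2
    push_cast
    ring
  rw [h1, norm_mul, norm_exp_im, one_mul]
  have := Real.norm_exp_I_mul_ofReal_sub_one_le (x := x - y)
  rwa [Real.norm_eq_abs] at this

/-- `h` is a small Lipschitz perturbation of the identity -/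
lemma h_lip (z w : ℂ) : ‖(h z - z) - (h w - w)‖ ≤ 1 / 4 * ‖z - w‖ := by
  unfold h
  have h0 : (z + (psi z.re : ℂ) * Complex.exp (z.im * I) - z) -
      (w + (psi w.re : ℂ) * Complex.exp (w.im * I) - w) =
      ((psi z.re - psi w.re : ℝ) : ℂ) * Complex.exp (z.im * I) +
        (psi w.re : ℂ) * (Complex.exp (z.im * I) - Complex.exp (w.im * I)) := by
    push_cast
    ring
  rw [h0]
  have h1 : ‖((psi z.re - psi w.re : ℝ) : ℂ) * Complex.exp (z.im * I)‖ ≤ 33 / 200 * ‖z - w‖ := by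
    rw [norm_mul, norm_exp_im, mul_one, Complex.norm_real, Real.norm_eq_abs]
    refine (psi_lip _ _).trans ?_
    have : |z.re - w.re| ≤ ‖z - w‖ := by
      rw [← sub_re]; exact abs_re_le_norm _
    linarith
  have h2 : ‖(psi w.re : ℂ) * (Complex.exp (z.im * I) - Complex.exp (w.im * I))‖ ≤
      1 / 18 * ‖z - w‖ := by
    rw [norm_mul, Complex.norm_real, Real.norm_eq_abs, abs_of_nonneg (psi_nonneg _)]
    have h3 : ‖Complex.exp (z.im * I) - Complex.exp (w.im * I)‖ ≤ ‖z - w‖ := by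
      refine (exp_im_lip _ _).trans ?_
      rw [← sub_im]; exact abs_im_le_norm _
    exact mul_le_mul (psi_le _) h3 (norm_nonneg _) (by norm_num)
  refine (norm_add_le _ _).trans ?_
  have := norm_nonneg (z - w)
  linarith

lemma h_dist_le (z w : ℂ) : ‖h z - h w‖ ≤ 5 / 4 * ‖z - w‖ := by
  have h1 : h z - h w = ((h z - z) - (h w - w)) + (z - w) := by ring
  rw [h1]
  refine (norm_add_le _ _).trans ?_
  linarith [h_lip z w]

lemma h_dist_ge (z w : ℂ) : 3 / 4 * ‖z - w‖ ≤ ‖h z - h w‖ := by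
  have h1 : z - w = (h z - h w) - ((h z - z) - (h w - w)) := by ring
  have h2 : ‖z - w‖ ≤ ‖h z - h w‖ + ‖(h z - z) - (h w - w)‖ := by
    conv_lhs => rw [h1]
    exact norm_sub_le _ _
  linarith [h_lip z w]

lemma h_sub_le (z : ℂ) : ‖h z - z‖ ≤ 1 / 18 := by
  unfold h
  rw [add_sub_cancel_left, norm_mul, norm_exp_im, mul_one, Complex.norm_real, Real.norm_eq_abs,
    abs_of_nonneg (psi_nonneg _)]
  exact psi_le _

lemma h_out {z : ℂ} (hz : 1 ≤ |z.re|) : h z = z := by
  unfold h psi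
  have : max 0 (min 1 (2 - 2 * |z.re|)) = 0 := by
    apply max_eq_left
    exact (min_le_right _ _).trans (by linarith)
  rw [this]
  simp

lemma h_in {z : ℂ} (hz : |z.re| ≤ 1 / 2) : h z = z + (1 / 50 : ℝ) * Complex.exp z := by
  unfold h psi
  have h1 : max 0 (min 1 (2 - 2 * |z.re|)) = 1 := by
    rw [min_eq_left (by linarith), max_eq_right zero_le_one]
  have h2 : min z.re 1 = z.re := min_eq_left (by linarith [le_abs_self z.re])
  rw [h1, h2, one_mul]
  congr 1
  have h3 : Complex.exp z = Complex.exp z.re * Complex.exp (z.im * I) := by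
    rw [← Complex.exp_add, re_add_im]
  rw [h3]
  push_cast
  ring

lemma h_strip {z : ℂ} (hz : |z.re| ≤ 1) : |(h z).re| ≤ 1 := by
  have h1 : (h z).re = z.re + psi z.re * Real.cos z.im := by
    unfold h
    rw [add_re, re_ofReal_mul, Complex.exp_ofReal_mul_I_re]
  have h2 : psi z.re ≤ 1 - |z.re| := by
    unfold psi
    have h3 := E_le z.re
    have h4 := Real.exp_pos (min z.re 1)
    have h5 : max 0 (min 1 (2 - 2 * |z.re|)) ≤ 2 - 2 * |z.re| :=
      max_le (by linarith) (min_le_right _ _)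
    have h6 : max 0 (min 1 (2 - 2 * |z.re|)) * Real.exp (min z.re 1) ≤ (2 - 2 * |z.re|) * 2.7183 :=
      mul_le_mul h5 h3 h4.le (by linarith)
    nlinarith
  have h3 := psi_nonneg z.re
  rw [h1]
  have h4 : |psi z.re * Real.cos z.im| ≤ psi z.re := by
    rw [abs_mul, abs_of_nonneg h3]
    have := Real.abs_cos_le_one z.im
    nlinarith
  refine (abs_add_le _ _).trans ?_
  linarith

lemma h_continuous : Continuous h := by
  have : LipschitzWith (Real.toNNReal (5 / 4)) h := by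
    apply LipschitzWith.of_dist_le_mul
    intro x y
    rw [dist_eq_norm, dist_eq_norm, Real.coe_toNNReal _ (by norm_num)]
    exact h_dist_le x y
  exact this.continuous

lemma h_approx : ApproximatesLinearOn h ((ContinuousLinearEquiv.refl ℂ ℂ : ℂ ≃L[ℂ] ℂ) : ℂ →L[ℂ] ℂ)
    univ (1 / 4 : NNReal) := by
  intro x _ y _
  have := h_lip x y
  have e : h x - h y - ((ContinuousLinearEquiv.refl ℂ ℂ : ℂ ≃L[ℂ] ℂ) : ℂ →L[ℂ] ℂ) (x - y) =
      (h x - x) - (h y - y) := by
    simp only [ContinuousLinearEquiv.coe_refl, ContinuousLinearMap.coe_id', id_eq]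
    ring
  rw [e]
  refine this.trans (le_of_eq ?_)
  push_cast
  ring

/-- `h` as a homeomorphism -/
noncomputable def H : ℂ ≃ₜ ℂ := by
  refine h_approx.toHomeomorph h (Or.inr ?_)
  rw [ContinuousLinearEquiv.refl_symm]
  have h1 : ‖((ContinuousLinearEquiv.refl ℂ ℂ : ℂ ≃L[ℂ] ℂ) : ℂ →L[ℂ] ℂ)‖₊ = 1 := by
    rw [ContinuousLinearEquiv.coe_refl]
    exact ContinuousLinearMap.nnnorm_id
  rw [h1]
  norm_num

@[simp] lemma H_apply (z : ℂ) : H z = h z := rfl

/-- the inverse of `h` -/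
noncomputable def k (z : ℂ) : ℂ := H.symm z

lemma h_k (z : ℂ) : h (k z) = z := H.apply_symm_apply z

lemma k_h (z : ℂ) : k (h z) = z := H.symm_apply_apply z

lemma k_continuous : Continuous k := H.symm.continuous

lemma k_sub_le (z : ℂ) : ‖k z - z‖ ≤ 1 / 18 := by
  have := h_sub_le (k z)
  rw [h_k, norm_sub_rev] at this
  exact this

lemma k_out {z : ℂ} (hz : 1 ≤ |z.re|) : k z = z := by
  conv_lhs => rw [← h_out hz]
  exact k_h z

lemma k_strip {z : ℂ} (hz : |z.re| ≤ 1) : |(k z).re| ≤ 1 := by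
  by_contra hcon
  push Not at hcon
  have h1 : h (k z) = k z := h_out hcon.le
  rw [h_k] at h1
  rw [← h1] at hcon
  linarith

end Pool.Agent.N283.QL
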