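import Mathlib
import Pool.Agent.N283.QL.Base

set_option autoImplicit false

open Complex Set Filter Topology BoundedContinuousFunction

namespace Pool.Agent.N283.QL

/-- centres of the two child strips -/
noncomputable def c (b : Bool) : ℝ := if b then 1 / 4 else 0

/-- rescaled copies of the displacement `u` in the child strips -/
noncomputable def Pi (u : ℂ → ℂ) (z : ℂ) : ℂ :=
  z + (th : ℂ) * u ((z - (c false : ℂ)) / th) + (th : ℂ) * u ((z - (c true : ℂ)) / th)

/-- the similarity onto the child strip -/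
noncomputable def sg (b : Bool) (z : ℂ) : ℂ := (c b : ℂ) + (th : ℂ) * z

def Out (u : ℂ → ℂ) : Prop := ∀ z : ℂ, 1 ≤ |z.re| → u z = 0

def Str (u : ℂ → ℂ) : Prop := ∀ z : ℂ, |z.re| ≤ 1 → |(z + u z).re| ≤ 1

lemma thC_ne : (th : ℂ) ≠ 0 := by exact_mod_cast th_pos.ne'

lemma th_lt : th < 1 / 10000000 := by unfold th; norm_num

lemma c_abs (b : Bool) : |c b| ≤ 1 / 4 := by
  unfold c; cases b <;> norm_num [abs_of_pos]

lemma c_sub {b b' : Bool} (h : b ≠ b') : |c b - c b'| = 1 / 4 := by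
  unfold c; cases b <;> cases b' <;> simp_all [abs_of_pos]

lemma div_re (z : ℂ) (b : Bool) : ((z - (c b : ℂ)) / th).re = (z.re - c b) / th := by
  rw [div_ofReal_re, sub_re, ofReal_re]

lemma sg_re (b : Bool) (z : ℂ) : (sg b z).re = c b + th * z.re := by
  unfold sg; rw [add_re, ofReal_re, re_ofReal_mul]

lemma term_out {u : ℂ → ℂ} (hu : Out u) {z : ℂ} {b : Bool} (hz : th ≤ |z.re - c b|) :
    u ((z - (c b : ℂ)) / th) = 0 := by
  apply hu
  rw [div_re, abs_div, abs_of_pos th_pos, le_div_iff₀ th_pos]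
  linarith

lemma sg_inv (b : Bool) (ξ : ℂ) : (sg b ξ - (c b : ℂ)) / th = ξ := by
  unfold sg
  rw [add_sub_cancel_left, mul_div_cancel_left₀ _ thC_ne]

lemma sg_surj (b : Bool) (z : ℂ) : sg b ((z - (c b : ℂ)) / th) = z := by
  unfold sg
  rw [mul_div_cancel₀ _ thC_ne]
  ring

lemma Pi_child {u : ℂ → ℂ} (hu : Out u) (b : Bool) {ξ : ℂ} (hξ : |ξ.re| ≤ 100) :
    Pi u (sg b ξ) = sg b (ξ + u ξ) := by
  have hfar : ∀ b', b' ≠ b → th ≤ |(sg b ξ).re - c b'| := by
    intro b' hb'
    rw [sg_re]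
    have h1 : |c b - c b'| = 1 / 4 := c_sub (Ne.symm hb')
    have h2 : |th * ξ.re| ≤ th * 100 := by
      rw [abs_mul, abs_of_pos th_pos]
      exact mul_le_mul_of_nonneg_left hξ th_pos.le
    have h3 : |c b - c b'| ≤ |c b + th * ξ.re - c b'| + |th * ξ.re| := by
      have : c b - c b' = (c b + th * ξ.re - c b') - th * ξ.re := by ring
      rw [this]
      exact abs_sub _ _
    have := th_lt
    linarith
  unfold Pi
  cases b with
  | false =>
    rw [term_out hu (hfar true (by simp)), sg_inv]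
    unfold sg
    ring
  | true =>
    rw [term_out hu (hfar false (by simp)), sg_inv]
    unfold sg
    ring

lemma Pi_far {u : ℂ → ℂ} (hu : Out u) {z : ℂ} (hz : ∀ b, th ≤ |z.re - c b|) : Pi u z = z := by
  unfold Pi
  rw [term_out hu (hz false), term_out hu (hz true)]
  ring

lemma far_of_out {z : ℂ} (hz : 1 ≤ |z.re|) (b : Bool) : th ≤ |z.re - c b| := by
  have h1 := c_abs b
  have h2 : |z.re| ≤ |z.re - c b| + |c b| := by
    have : z.re = (z.re - c b) + c b := by ring
    conv_lhs => rw [this]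
    exact abs_add_le _ _
  have := th_lt
  linarith

lemma child_or_far (z : ℂ) :
    (∃ b, ∃ ξ : ℂ, |ξ.re| ≤ 1 ∧ z = sg b ξ) ∨ (∀ b, th < |z.re - c b|) := by
  by_cases hz : ∀ b, th < |z.re - c b|
  · exact Or.inr hz
  · left
    push Not at hz
    obtain ⟨b, hb⟩ := hz
    refine ⟨b, (z - (c b : ℂ)) / th, ?_, (sg_surj b z).symm⟩
    rw [div_re, abs_div, abs_of_pos th_pos, div_le_one th_pos]
    exact hb

lemma sg_strip (b : Bool) {ξ : ℂ} {R : ℝ} (hR : R ≤ 100) (hξ : |ξ.re| ≤ R) : |(sg b ξ).re| ≤ 1 / 2 := by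
  rw [sg_re]
  have h1 := c_abs b
  have h2 : |th * ξ.re| ≤ th * R := by
    rw [abs_mul, abs_of_pos th_pos]
    exact mul_le_mul_of_nonneg_left hξ th_pos.le
  have h3 := th_lt
  have h4 := th_pos
  refine (abs_add_le _ _).trans ?_
  nlinarith

lemma Pi_strip {u : ℂ → ℂ} (hu : Out u) (hs : Str u) {z : ℂ} (hz : |z.re| ≤ 1) :
    |(Pi u z).re| ≤ 1 := by
  rcases child_or_far z with ⟨b, ξ, hξ, rfl⟩ | hfar
  · rw [Pi_child hu b (by linarith)]
    exact (sg_strip b (R := 1) (by norm_num) (hs ξ hξ)).trans (by norm_num)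
  · rw [Pi_far hu (fun b => (hfar b).le)]
    exact hz

lemma Pi_sub_le {u : ℂ → ℂ} {M : ℝ} (hM : ∀ z, ‖u z‖ ≤ M) (z : ℂ) : ‖Pi u z - z‖ ≤ 2 * th * M := by
  unfold Pi
  have h1 : z + (th : ℂ) * u ((z - (c false : ℂ)) / th) + (th : ℂ) * u ((z - (c true : ℂ)) / th) - z =
    (th : ℂ) * u ((z - (c false : ℂ)) / th) + (th : ℂ) * u ((z - (c true : ℂ)) / th) := by ring
  rw [h1]
  refine (norm_add_le _ _).trans ?_
  rw [norm_mul, norm_mul, Complex.norm_real, Real.norm_eq_abs, abs_of_pos th_pos]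
  have h2 := mul_le_mul_of_nonneg_left (hM ((z - (c false : ℂ)) / th)) th_pos.le
  have h3 := mul_le_mul_of_nonneg_left (hM ((z - (c true : ℂ)) / th)) th_pos.le
  linarith

lemma Pi_diff_le {u v : ℂ → ℂ} {M : ℝ} (hM : ∀ z, ‖u z - v z‖ ≤ M) (z : ℂ) :
    ‖Pi u z - Pi v z‖ ≤ 2 * th * M := by
  have h1 : Pi u z - Pi v z = Pi (fun z => u z - v z) z - z := by
    unfold Pi
    ring
  rw [h1]
  exact Pi_sub_le hM z

lemma Pi_continuous {u : ℂ → ℂ} (hu : Continuous u) : Continuous (Pi u) := by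
  unfold Pi
  fun_prop

/-- the operator whose fixed point is the displacement of the quasiconformal map -/
noncomputable def T (u : ℂ →ᵇ ℂ) : ℂ →ᵇ ℂ :=
  BoundedContinuousFunction.ofNormedAddCommGroup (fun z => h (Pi u z) - z)
    ((h_continuous.comp (Pi_continuous u.continuous)).sub continuous_id) (1 / 18 + 2 * th * ‖u‖)
    (by
      intro z
      have h1 := h_sub_le (Pi u z)
      have h2 := Pi_sub_le (u := u) (fun z => u.norm_coe_le_norm z) z
      have h3 : h (Pi u z) - z = (h (Pi u z) - Pi u z) + (Pi u z - z) := by ring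
      rw [h3]
      exact (norm_add_le _ _).trans (add_le_add h1 h2))

/-- the operator for the inverse map -/
noncomputable def S (v : ℂ →ᵇ ℂ) : ℂ →ᵇ ℂ :=
  BoundedContinuousFunction.ofNormedAddCommGroup (fun z => Pi v (k z) - z)
    (((Pi_continuous v.continuous).comp k_continuous).sub continuous_id) (1 / 18 + 2 * th * ‖v‖)
    (by
      intro z
      have h1 := k_sub_le z
      have h2 := Pi_sub_le (u := v) (fun z => v.norm_coe_le_norm z) (k z)
      have h3 : Pi v (k z) - z = (k z - z) + (Pi v (k z) - k z) := by ring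
      rw [h3]
      exact (norm_add_le _ _).trans (add_le_add h1 h2))

lemma T_apply (u : ℂ →ᵇ ℂ) (z : ℂ) : T u z = h (Pi u z) - z := rfl

lemma S_apply (v : ℂ →ᵇ ℂ) (z : ℂ) : S v z = Pi v (k z) - z := rfl

lemma T_contracting : ContractingWith (1 / 2) T := by
  refine ⟨by norm_num, LipschitzWith.of_dist_le_mul fun u v => ?_⟩
  rw [BoundedContinuousFunction.dist_le (by positivity)]
  intro z
  rw [T_apply, T_apply, dist_eq_norm]
  have h1 : h (Pi u z) - z - (h (Pi v z) - z) = h (Pi u z) - h (Pi v z) := by ring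
  rw [h1]
  refine (h_dist_le _ _).trans ?_
  have h2 : ‖Pi u z - Pi v z‖ ≤ 2 * th * dist u v := by
    apply Pi_diff_le
    intro w
    rw [← dist_eq_norm]
    exact BoundedContinuousFunction.dist_coe_le_dist w
  have h3 := th_lt
  have h4 := th_pos
  have h5 : 0 ≤ dist u v := dist_nonneg
  have h6 : ((1 / 2 : NNReal) : ℝ) = 1 / 2 := by push_cast; norm_num
  rw [h6]
  have h7 : 2 * th * dist u v ≤ 2 * (1 / 10000000) * dist u v := by
    apply mul_le_mul_of_nonneg_right _ h5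
    linarith
  linarith

lemma S_contracting : ContractingWith (1 / 2) S := by
  refine ⟨by norm_num, LipschitzWith.of_dist_le_mul fun u v => ?_⟩
  rw [BoundedContinuousFunction.dist_le (by positivity)]
  intro z
  rw [S_apply, S_apply, dist_eq_norm]
  have h1 : Pi u (k z) - z - (Pi v (k z) - z) = Pi u (k z) - Pi v (k z) := by ring
  rw [h1]
  have h2 : ‖Pi u (k z) - Pi v (k z)‖ ≤ 2 * th * dist u v := by
    apply Pi_diff_le
    intro w
    rw [← dist_eq_norm]
    exact BoundedContinuousFunction.dist_coe_le_dist w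
  have h3 := th_lt
  have h4 := th_pos
  have h5 : 0 ≤ dist u v := dist_nonneg
  have h6 : ((1 / 2 : NNReal) : ℝ) = 1 / 2 := by push_cast; norm_num
  rw [h6]
  have h7 : 2 * th * dist u v ≤ 2 * (1 / 10000000) * dist u v := by
    apply mul_le_mul_of_nonneg_right _ h5
    linarith
  linarith

lemma T_good {u : ℂ →ᵇ ℂ} (hu : Out u) (hs : Str u) : Out (T u) ∧ Str (T u) := by
  refine ⟨fun z hz => ?_, fun z hz => ?_⟩
  · rw [T_apply, Pi_far hu (far_of_out hz), h_out hz, sub_self]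
  · rw [T_apply, add_sub_cancel]
    exact h_strip (Pi_strip hu hs hz)

lemma S_good {v : ℂ →ᵇ ℂ} (hu : Out v) (hs : Str v) : Out (S v) ∧ Str (S v) := by
  refine ⟨fun z hz => ?_, fun z hz => ?_⟩
  · rw [S_apply, k_out hz, Pi_far hu (far_of_out hz), sub_self]
  · rw [S_apply, add_sub_cancel]
    exact Pi_strip hu hs (k_strip hz)

lemma good_limit {F : (ℂ →ᵇ ℂ) → (ℂ →ᵇ ℂ)} (hF : ∀ u : ℂ →ᵇ ℂ, Out u → Str u → Out (F u) ∧ Str (F u))
    {w : ℂ →ᵇ ℂ} (hw : Tendsto (fun n => F^[n] 0) atTop (𝓝 w)) : Out w ∧ Str w := by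
  have h1 : ∀ n, Out (F^[n] 0) ∧ Str (F^[n] 0) := by
    intro n
    induction n with
    | zero =>
      refine ⟨fun z _ => by simp, fun z hz => by simpa using hz⟩
    | succ n ih =>
      rw [Function.iterate_succ_apply']
      exact hF _ ih.1 ih.2
  have h2 : ∀ z, Tendsto (fun n => (F^[n] 0) z) atTop (𝓝 (w z)) := by
    intro z
    exact ((continuous_eval_const (F := ℂ →ᵇ ℂ) z).tendsto w).comp hw
  refine ⟨fun z hz => ?_, fun z hz => ?_⟩
  · refine tendsto_nhds_unique (h2 z) ?_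
    have : (fun n => (F^[n] 0) z) = fun _ => (0 : ℂ) := by
      funext n
      exact (h1 n).1 z hz
    rw [this]
    exact tendsto_const_nhds
  · have h3 : Tendsto (fun n => |(z + (F^[n] 0) z).re|) atTop (𝓝 |(z + w z).re|) := by
      have : Continuous fun t : ℂ => |(z + t).re| := by fun_prop
      exact (this.tendsto (w z)).comp (h2 z)
    exact le_of_tendsto' h3 (fun n => (h1 n).2 z hz)

/-- displacement of `f` -/
noncomputable def u : ℂ →ᵇ ℂ := ContractingWith.fixedPoint T T_contracting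

/-- displacement of the inverse of `f` -/
noncomputable def v : ℂ →ᵇ ℂ := ContractingWith.fixedPoint S S_contracting

lemma u_fix (z : ℂ) : z + u z = h (Pi u z) := by
  have h1 : T u = u := T_contracting.fixedPoint_isFixedPt
  have h2 : T u z = u z := by rw [h1]
  rw [T_apply] at h2
  rw [← h2]
  ring

lemma v_fix (z : ℂ) : z + v z = Pi v (k z) := by
  have h1 : S v = v := S_contracting.fixedPoint_isFixedPt
  have h2 : S v z = v z := by rw [h1]
  rw [S_apply] at h2
  rw [← h2]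
  ring

lemma u_good : Out u ∧ Str u :=
  good_limit (F := T) (fun _ => T_good) (T_contracting.tendsto_iterate_fixedPoint 0)

lemma v_good : Out v ∧ Str v :=
  good_limit (F := S) (fun _ => S_good) (S_contracting.tendsto_iterate_fixedPoint 0)

lemma u_norm : ‖u‖ ≤ 1 / 16 := by
  have h1 : ‖u‖ ≤ 1 / 18 + 2 * th * ‖u‖ := by
    rw [BoundedContinuousFunction.norm_le (by have := th_pos; positivity)]
    intro z
    have h1 := h_sub_le (Pi u z)
    have h2 := Pi_sub_le (u := u) (fun z => u.norm_coe_le_norm z) z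
    have h3 : u z = (h (Pi u z) - Pi u z) + (Pi u z - z) := by
      have := u_fix z
      rw [← this]
      ring
    rw [h3]
    exact (norm_add_le _ _).trans (add_le_add h1 h2)
  have h2 := th_lt
  have h3 : 0 ≤ ‖u‖ := norm_nonneg _
  have h4 := th_pos
  have h5 : 2 * th * ‖u‖ ≤ 2 * (1 / 10000000) * ‖u‖ := by
    apply mul_le_mul_of_nonneg_right _ h3
    linarith
  linarith

lemma Pi_near (z : ℂ) : ‖Pi u z - z‖ ≤ th / 8 := by
  have h2 := Pi_sub_le (u := u) (fun z => u.norm_coe_le_norm z) z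
  have h3 := u_norm
  have h4 := th_pos
  nlinarith

lemma Pi_comp {a b : ℂ → ℂ} (ha : Out a) (hb : Out b) (hbs : Str b) (M : ℝ) (hM0 : 0 ≤ M)
    (hM : ∀ z, ‖(z + b z) + a (z + b z) - z‖ ≤ M) (z : ℂ) : ‖Pi a (Pi b z) - z‖ ≤ th * M := by
  rcases child_or_far z with ⟨d, ξ, hξ, rfl⟩ | hfar
  · rw [Pi_child hb d (by linarith), Pi_child ha d ((hbs ξ hξ).trans (by norm_num))]
    have h1 : sg d (ξ + b ξ + a (ξ + b ξ)) - sg d ξ = (th : ℂ) * ((ξ + b ξ) + a (ξ + b ξ) - ξ) := by
      unfold sg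
      ring
    rw [h1, norm_mul, Complex.norm_real, Real.norm_eq_abs, abs_of_pos th_pos]
    exact mul_le_mul_of_nonneg_left (hM ξ) th_pos.le
  · rw [Pi_far hb (fun b => (hfar b).le), Pi_far ha (fun b => (hfar b).le), sub_self, norm_zero]
    exact mul_nonneg th_pos.le hM0

lemma fg_bound (n : ℕ) (z : ℂ) : ‖(z + v z) + u (z + v z) - z‖ ≤ (‖u‖ + ‖v‖) / 2 ^ n := by
  induction n generalizing z with
  | zero =>
    rw [pow_zero, div_one]
    have h1 : (z + v z) + u (z + v z) - z = u (z + v z) + v z := by ring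
    rw [h1]
    exact (norm_add_le _ _).trans (add_le_add (u.norm_coe_le_norm _) (v.norm_coe_le_norm _))
  | succ n ih =>
    have h1 : z = h (k z) := (h_k z).symm
    have h2 : (z + v z) + u (z + v z) = h (Pi u (Pi v (k z))) := by
      rw [v_fix, u_fix]
    rw [h2]
    conv_lhs => rw [h1]
    rw [k_h]
    refine (h_dist_le _ _).trans ?_
    have h3 := Pi_comp u_good.1 v_good.1 v_good.2 ((‖u‖ + ‖v‖) / 2 ^ n) (by positivity) ih (k z)
    have h4 : 0 ≤ (‖u‖ + ‖v‖) / 2 ^ n := by positivity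
    have h5 := th_lt
    have h6 : (‖u‖ + ‖v‖) / 2 ^ (n + 1) = (‖u‖ + ‖v‖) / 2 ^ n / 2 := by
      rw [pow_succ, div_div]
    rw [h6]
    nlinarith

lemma gf_bound (n : ℕ) (z : ℂ) : ‖(z + u z) + v (z + u z) - z‖ ≤ (‖u‖ + ‖v‖) / 2 ^ n := by
  induction n generalizing z with
  | zero =>
    rw [pow_zero, div_one]
    have h1 : (z + u z) + v (z + u z) - z = u z + v (z + u z) := by ring
    rw [h1]
    exact (norm_add_le _ _).trans (add_le_add (u.norm_coe_le_norm _) (v.norm_coe_le_norm _))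
  | succ n ih =>
    have h2 : (z + u z) + v (z + u z) = Pi v (Pi u z) := by
      rw [v_fix, u_fix, k_h]
    rw [h2]
    have h3 := Pi_comp v_good.1 u_good.1 u_good.2 ((‖u‖ + ‖v‖) / 2 ^ n) (by positivity) ih z
    have h4 : 0 ≤ (‖u‖ + ‖v‖) / 2 ^ n := by positivity
    have h5 := th_lt
    have h6 : (‖u‖ + ‖v‖) / 2 ^ (n + 1) = (‖u‖ + ‖v‖) / 2 ^ n / 2 := by
      rw [pow_succ, div_div]
    rw [h6]
    nlinarith

lemma zero_of_bound {x : ℂ} {M : ℝ} (hx : ∀ n : ℕ, ‖x‖ ≤ M / 2 ^ n) : x = 0 := by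
  have h1 : Tendsto (fun n : ℕ => M / 2 ^ n) atTop (𝓝 0) := by
    have := (tendsto_pow_atTop_nhds_zero_of_lt_one (r := (1 / 2 : ℝ)) (by norm_num)
      (by norm_num)).const_mul M
    rw [mul_zero] at this
    refine this.congr fun n => ?_
    rw [div_pow, one_pow]
    ring
  have h2 : ‖x‖ ≤ 0 := ge_of_tendsto' h1 hx
  exact norm_le_zero_iff.1 h2

/-- the quasiconformal homeomorphism -/
noncomputable def f : ℂ ≃ₜ ℂ where
  toFun z := z + u z
  invFun z := z + v z
  left_inv z := by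
    have := zero_of_bound (fun n => gf_bound n z)
    simp only
    linear_combination this
  right_inv z := by
    have := zero_of_bound (fun n => fg_bound n z)
    simp only
    linear_combination this
  continuous_toFun := continuous_id.add u.continuous
  continuous_invFun := continuous_id.add v.continuous

lemma f_apply (z : ℂ) : f z = z + u z := rfl

lemma f_eq (z : ℂ) : f z = h (Pi u z) := u_fix z

lemma f_out {z : ℂ} (hz : 1 ≤ |z.re|) : f z = z := by
  rw [f_apply, u_good.1 z hz, add_zero]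

lemma f_strip {z : ℂ} (hz : |z.re| ≤ 1) : |(f z).re| ≤ 1 := u_good.2 z hz

lemma f_far {z : ℂ} (hz : ∀ b, th ≤ |z.re - c b|) : f z = h z := by
  rw [f_eq, Pi_far u_good.1 hz]

lemma f_sg (b : Bool) {ξ : ℂ} (hξ : |ξ.re| ≤ 100) : f (sg b ξ) = h (sg b (f ξ)) := by
  rw [f_eq, Pi_child u_good.1 b hξ]
  rfl

lemma f_re {z : ℂ} {R : ℝ} (hR : 1 ≤ R) (hz : |z.re| ≤ R) : |(f z).re| ≤ R := by
  rcases le_total |z.re| 1 with h1 | h1
  · exact (f_strip h1).trans hR
  · rw [f_out h1]; exact hz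

end Pool.Agent.N283.QL
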