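import Mathlib
import Pool.Agent.N283.QL.Fix

set_option autoImplicit false

open Complex Set Filter Topology

namespace Pool.Agent.N283.QL

/-- similarity attached to a word -/
noncomputable def sw : List Bool → ℂ → ℂ
  | [], z => z
  | b :: w, z => sg b (sw w z)

/-- conformal contraction attached to a word -/
noncomputable def pw : List Bool → ℂ → ℂ
  | [], z => z
  | b :: w, z => h (sg b (pw w z))

lemma sw_re (w : List Bool) {z : ℂ} (hz : |z.re| ≤ 100) : |(sw w z).re| ≤ 100 := by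
  cases w with
  | nil => exact hz
  | cons b w =>
    have ih := sw_re w hz
    exact (sg_strip b (R := 100) le_rfl ih).trans (by norm_num)

lemma pw_re (w : List Bool) {z : ℂ} (hz : |z.re| ≤ 100) : |(pw w z).re| ≤ 100 := by
  cases w with
  | nil => exact hz
  | cons b w =>
    have ih := pw_re w hz
    exact (h_strip ((sg_strip b (R := 100) le_rfl ih).trans (by norm_num))).trans (by norm_num)

lemma f_sw (w : List Bool) {z : ℂ} (hz : |z.re| ≤ 100) : f (sw w z) = pw w (f z) := by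
  induction w with
  | nil => rfl
  | cons b w ih =>
    show f (sg b (sw w z)) = h (sg b (pw w (f z)))
    rw [f_sg b (sw_re w hz), ih]

lemma exp_half_lt : Real.exp (1 / 2) < 2 := by
  have h1 : Real.exp (1 / 2) * Real.exp (1 / 2) = Real.exp 1 := by
    rw [← Real.exp_add]; norm_num
  have h2 := e_lt
  have h3 := Real.exp_pos (1 / 2)
  nlinarith

lemma exp_near_lin {ξ ξ' ξ₀ : ℂ} {δ : ℝ} (h0 : ξ₀.re ≤ 1 / 2) (h1 : ξ.re ≤ 1 / 2)
    (h2 : ξ'.re ≤ 1 / 2) (d1 : ‖ξ - ξ₀‖ ≤ δ) (d2 : ‖ξ' - ξ₀‖ ≤ δ) :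
    ‖Complex.exp ξ - Complex.exp ξ' - Complex.exp ξ₀ * (ξ - ξ')‖ ≤ 2 * δ * ‖ξ - ξ'‖ := by
  have hconv : Convex ℝ {t : ℂ | t.re ≤ 1 / 2} := convex_halfSpace_re_le _
  have hexp : ∀ t : ℂ, t.re ≤ 1 / 2 → ‖Complex.exp t - Complex.exp ξ₀‖ ≤ 2 * ‖t - ξ₀‖ := by
    intro t ht
    refine hconv.norm_image_sub_le_of_norm_deriv_le (f := Complex.exp) (fun x _ => ?_)
      (fun x hx => ?_) h0 ht
    · exact Complex.differentiable_exp x
    · rw [Complex.deriv_exp, Complex.norm_exp]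
      exact (Real.exp_le_exp.2 hx).trans exp_half_lt.le
  have hconv2 : Convex ℝ ({t : ℂ | t.re ≤ 1 / 2} ∩ Metric.closedBall ξ₀ δ) :=
    hconv.inter (convex_closedBall _ _)
  have hder : ∀ x : ℂ, HasDerivAt (fun t => Complex.exp t - Complex.exp ξ₀ * t)
      (Complex.exp x - Complex.exp ξ₀ * 1) x := by
    intro x
    exact (Complex.hasDerivAt_exp x).sub ((hasDerivAt_id' x).const_mul _)
  have key := hconv2.norm_image_sub_le_of_norm_deriv_le
    (f := fun t => Complex.exp t - Complex.exp ξ₀ * t) (C := 2 * δ) (x := ξ') (y := ξ)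
    (fun x _ => (hder x).differentiableAt) (fun x hx => ?_) ⟨h2, ?_⟩ ⟨h1, ?_⟩
  · have e : Complex.exp ξ - Complex.exp ξ' - Complex.exp ξ₀ * (ξ - ξ') =
        (Complex.exp ξ - Complex.exp ξ₀ * ξ) - (Complex.exp ξ' - Complex.exp ξ₀ * ξ') := by ring
    rw [e]
    exact key
  · rw [(hder x).deriv, mul_one]
    refine (hexp x hx.1).trans ?_
    have : ‖x - ξ₀‖ ≤ δ := by
      have := hx.2
      rwa [mem_closedBall_iff_norm] at this
    linarith
  · rw [mem_closedBall_iff_norm]; exact d2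
  · rw [mem_closedBall_iff_norm]; exact d1

lemma sg_sub (b : Bool) (z w : ℂ) : sg b z - sg b w = (th : ℂ) * (z - w) := by
  unfold sg; ring

lemma step_near_lin (b : Bool) {A A' A₀ : ℂ} {ρ : ℝ} (h0 : |A₀.re| ≤ 100) (h1 : |A.re| ≤ 100)
    (h2 : |A'.re| ≤ 100) (d1 : ‖A - A₀‖ ≤ ρ) (d2 : ‖A' - A₀‖ ≤ ρ) :
    ∃ μ : ℂ, th / 2 ≤ ‖μ‖ ∧ ‖μ‖ ≤ 2 * th ∧
      ‖h (sg b A) - h (sg b A') - μ * (A - A')‖ ≤ th * ρ * ‖μ‖ * ‖A - A'‖ ∧
      μ = (th : ℂ) * (1 + (1 / 50 : ℝ) * Complex.exp (sg b A₀)) := by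
  have hth := th_pos
  have hρ : 0 ≤ ρ := (norm_nonneg _).trans d1
  have e0 := sg_strip b (R := 100) le_rfl h0
  have e1 := sg_strip b (R := 100) le_rfl h1
  have e2 := sg_strip b (R := 100) le_rfl h2
  have hexp : ‖((1 / 50 : ℝ) : ℂ) * Complex.exp (sg b A₀)‖ ≤ 1 / 25 := by
    rw [norm_mul, Complex.norm_real, Complex.norm_exp, Real.norm_eq_abs,
      abs_of_pos (by norm_num : (0 : ℝ) < 1 / 50)]
    have : Real.exp (sg b A₀).re ≤ 2 :=
      (Real.exp_le_exp.2 ((le_abs_self _).trans e0)).trans exp_half_lt.le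
    linarith
  have hμ : ‖(th : ℂ) * (1 + (1 / 50 : ℝ) * Complex.exp (sg b A₀))‖ =
      th * ‖1 + ((1 / 50 : ℝ) : ℂ) * Complex.exp (sg b A₀)‖ := by
    rw [norm_mul, Complex.norm_real, Real.norm_eq_abs, abs_of_pos hth]
  have hlow : 1 / 2 ≤ ‖1 + ((1 / 50 : ℝ) : ℂ) * Complex.exp (sg b A₀)‖ := by
    have := norm_sub_norm_le (1 : ℂ) (-(((1 / 50 : ℝ) : ℂ) * Complex.exp (sg b A₀)))
    rw [sub_neg_eq_add, norm_neg, norm_one] at this
    linarith
  have hup : ‖1 + ((1 / 50 : ℝ) : ℂ) * Complex.exp (sg b A₀)‖ ≤ 2 := by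
    refine (norm_add_le _ _).trans ?_
    rw [norm_one]
    linarith
  refine ⟨(th : ℂ) * (1 + (1 / 50 : ℝ) * Complex.exp (sg b A₀)), ?_, ?_, ?_, rfl⟩
  · rw [hμ]
    nlinarith
  · rw [hμ]
    nlinarith
  · rw [h_in e1, h_in e2]
    have hs1 : ‖sg b A - sg b A₀‖ ≤ th * ρ := by
      rw [sg_sub, norm_mul, Complex.norm_real, Real.norm_eq_abs, abs_of_pos hth]
      exact mul_le_mul_of_nonneg_left d1 hth.le
    have hs2 : ‖sg b A' - sg b A₀‖ ≤ th * ρ := by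
      rw [sg_sub, norm_mul, Complex.norm_real, Real.norm_eq_abs, abs_of_pos hth]
      exact mul_le_mul_of_nonneg_left d2 hth.le
    have key := exp_near_lin ((le_abs_self _).trans e0) ((le_abs_self _).trans e1)
      ((le_abs_self _).trans e2) hs1 hs2
    have e : sg b A + (1 / 50 : ℝ) * Complex.exp (sg b A) -
        (sg b A' + (1 / 50 : ℝ) * Complex.exp (sg b A')) -
        (th : ℂ) * (1 + (1 / 50 : ℝ) * Complex.exp (sg b A₀)) * (A - A') =
        (1 / 50 : ℝ) * (Complex.exp (sg b A) - Complex.exp (sg b A') -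
          Complex.exp (sg b A₀) * (sg b A - sg b A')) := by
      rw [sg_sub]
      unfold sg
      ring
    rw [e, norm_mul, Complex.norm_real, Real.norm_eq_abs, abs_of_pos (by norm_num : (0 : ℝ) < 1 / 50)]
    have e3 : ‖sg b A - sg b A'‖ = th * ‖A - A'‖ := by
      rw [sg_sub, norm_mul, Complex.norm_real, Real.norm_eq_abs, abs_of_pos hth]
    rw [e3] at key
    rw [hμ]
    have h5 : 0 ≤ ‖A - A'‖ := norm_nonneg _
    have h6 : th * ρ * (th * (1 / 2)) * ‖A - A'‖ ≤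
        th * ρ * (th * ‖1 + ((1 / 50 : ℝ) : ℂ) * Complex.exp (sg b A₀)‖) * ‖A - A'‖ := by
      apply mul_le_mul_of_nonneg_right _ h5
      apply mul_le_mul_of_nonneg_left _ (mul_nonneg hth.le hρ)
      exact mul_le_mul_of_nonneg_left hlow hth.le
    have h7 : 0 ≤ th * ρ * th * ‖A - A'‖ := by positivity
    nlinarith

/-- bounded distortion of the conformal contractions -/
lemma near_sim (w : List Bool) (z₀ : ℂ) (hz₀ : |z₀.re| ≤ 10) :
    ∃ μ : ℂ, μ ≠ 0 ∧ ‖μ‖ ≤ (2 * th) ^ w.length ∧ ∀ z z' : ℂ, ‖z - z₀‖ ≤ 8 → ‖z' - z₀‖ ≤ 8 →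
      ‖pw w z - pw w z' - μ * (z - z')‖ ≤
        64 * th * (1 - (1 / 2) ^ w.length) * ‖μ‖ * ‖z - z'‖ := by
  have hth := th_pos
  have hth' := th_lt
  induction w with
  | nil =>
    refine ⟨1, one_ne_zero, by simp, fun z z' _ _ => ?_⟩
    simp [pw]
  | cons b w ih =>
    obtain ⟨μ, hμ0, hμ1, hμ⟩ := ih
    set n := w.length with hn
    set η : ℝ := 64 * th * (1 - (1 / 2) ^ n) with hη
    have hp : (0 : ℝ) < (1 / 2) ^ n := by positivity
    have hp1 : ((1 : ℝ) / 2) ^ n ≤ 1 := pow_le_one₀ (by norm_num) (by norm_num)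
    have hη0 : 0 ≤ η := by
      rw [hη]
      have : 0 ≤ 1 - ((1 : ℝ) / 2) ^ n := by linarith
      positivity
    have hη1 : η ≤ 1 := by
      rw [hη]
      nlinarith
    have hpow : (2 * th) ^ n ≤ (1 / 2) ^ n :=
      pow_le_pow_left₀ (by positivity) (by linarith) n
    have hre : ∀ z : ℂ, ‖z - z₀‖ ≤ 8 → |(pw w z).re| ≤ 100 := by
      intro z hz
      apply pw_re
      have h1 : |(z - z₀).re| ≤ 8 := (abs_re_le_norm _).trans hz
      have h2 : z.re = (z - z₀).re + z₀.re := by rw [sub_re]; ring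
      rw [h2]
      exact (abs_add_le _ _).trans (by linarith)
    have hz00 : ‖z₀ - z₀‖ ≤ 8 := by simp
    have hball : ∀ z : ℂ, ‖z - z₀‖ ≤ 8 → ‖pw w z - pw w z₀‖ ≤ 16 * (1 / 2) ^ n := by
      intro z hz
      have h1 := hμ z z₀ hz hz00
      have h2 : pw w z - pw w z₀ = (pw w z - pw w z₀ - μ * (z - z₀)) + μ * (z - z₀) := by ring
      rw [h2]
      refine (norm_add_le _ _).trans ?_
      rw [norm_mul]
      have h3 : 0 ≤ ‖μ‖ := norm_nonneg _
      have h4 : 0 ≤ ‖z - z₀‖ := norm_nonneg _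
      have h5 : η * ‖μ‖ * ‖z - z₀‖ ≤ 1 * ‖μ‖ * ‖z - z₀‖ := by
        apply mul_le_mul_of_nonneg_right _ h4
        exact mul_le_mul_of_nonneg_right hη1 h3
      have h6 : ‖μ‖ * ‖z - z₀‖ ≤ (1 / 2) ^ n * 8 :=
        mul_le_mul (hμ1.trans hpow) hz h4 hp.le
      linarith
    obtain ⟨ν, hν1, hν2, -, hνe⟩ := step_near_lin b (A₀ := pw w z₀) (A := pw w z₀) (A' := pw w z₀)
      (ρ := 0) (hre z₀ hz00) (hre z₀ hz00) (hre z₀ hz00) (by simp) (by simp)
    have hν0 : ν ≠ 0 := by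
      rw [← norm_pos_iff]; linarith
    refine ⟨ν * μ, mul_ne_zero hν0 hμ0, ?_, ?_⟩
    · rw [norm_mul, List.length_cons, pow_succ, mul_comm]
      exact mul_le_mul hμ1 hν2 (norm_nonneg _) (by positivity)
    · intro z z' hz hz'
      obtain ⟨ν', -, -, hν', hνe'⟩ := step_near_lin b (hre z₀ hz00) (hre z hz) (hre z' hz')
        (hball z hz) (hball z' hz')
      rw [← hνe] at hνe'
      subst hνe'
      have h1 := hμ z z' hz hz'
      have e : pw (b :: w) z - pw (b :: w) z' - ν' * μ * (z - z') =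
          (h (sg b (pw w z)) - h (sg b (pw w z')) - ν' * (pw w z - pw w z')) +
          ν' * (pw w z - pw w z' - μ * (z - z')) := by
        show h (sg b (pw w z)) - h (sg b (pw w z')) - ν' * μ * (z - z') = _
        ring
      rw [e]
      refine (norm_add_le _ _).trans ?_
      rw [norm_mul, norm_mul, List.length_cons, pow_succ]
      have hA : ‖pw w z - pw w z'‖ ≤ 2 * ‖μ‖ * ‖z - z'‖ := by
        have h2 : pw w z - pw w z' = (pw w z - pw w z' - μ * (z - z')) + μ * (z - z') := by ring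
        rw [h2]
        refine (norm_add_le _ _).trans ?_
        rw [norm_mul]
        have h3 : 0 ≤ ‖μ‖ := norm_nonneg _
        have h4 : 0 ≤ ‖z - z'‖ := norm_nonneg _
        have h5 : η * ‖μ‖ * ‖z - z'‖ ≤ 1 * ‖μ‖ * ‖z - z'‖ := by
          apply mul_le_mul_of_nonneg_right _ h4
          exact mul_le_mul_of_nonneg_right hη1 h3
        linarith
      set P := ‖z - z'‖ with hP
      have hP0 : 0 ≤ P := norm_nonneg _
      have hν0' : 0 ≤ ‖ν'‖ := norm_nonneg _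
      have hμ0' : 0 ≤ ‖μ‖ := norm_nonneg _
      have h7 : ‖h (sg b (pw w z)) - h (sg b (pw w z')) - ν' * (pw w z - pw w z')‖ ≤
          th * (16 * (1 / 2) ^ n) * ‖ν'‖ * (2 * ‖μ‖ * P) :=
        hν'.trans (mul_le_mul_of_nonneg_left hA (by positivity))
      have h8 : ‖ν'‖ * ‖pw w z - pw w z' - μ * (z - z')‖ ≤ ‖ν'‖ * (η * ‖μ‖ * P) :=
        mul_le_mul_of_nonneg_left h1 hν0'
      refine (add_le_add h7 h8).trans (le_of_eq ?_)
      rw [hη]
      ring

/-- two-sided bounds -/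
lemma near_sim' (w : List Bool) (z₀ : ℂ) (hz₀ : |z₀.re| ≤ 10) :
    ∃ m : ℝ, 0 < m ∧ ∀ z z' : ℂ, ‖z - z₀‖ ≤ 8 → ‖z' - z₀‖ ≤ 8 →
      (1 - 64 * th) * m * ‖z - z'‖ ≤ ‖pw w z - pw w z'‖ ∧
      ‖pw w z - pw w z'‖ ≤ (1 + 64 * th) * m * ‖z - z'‖ := by
  obtain ⟨μ, hμ0, -, hμ⟩ := near_sim w z₀ hz₀
  refine ⟨‖μ‖, norm_pos_iff.2 hμ0, fun z z' hz hz' => ?_⟩
  have h1 := hμ z z' hz hz'
  have hth := th_pos
  have hp : (0 : ℝ) < (1 / 2) ^ w.length := by positivity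
  have hp1 : ((1 : ℝ) / 2) ^ w.length ≤ 1 := pow_le_one₀ (by norm_num) (by norm_num)
  have h3 : 0 ≤ ‖μ‖ := norm_nonneg _
  have h4 : 0 ≤ ‖z - z'‖ := norm_nonneg _
  have h5 : 64 * th * (1 - (1 / 2) ^ w.length) * ‖μ‖ * ‖z - z'‖ ≤ 64 * th * ‖μ‖ * ‖z - z'‖ := by
    apply mul_le_mul_of_nonneg_right _ h4
    apply mul_le_mul_of_nonneg_right _ h3
    nlinarith
  have h6 : ‖μ * (z - z')‖ = ‖μ‖ * ‖z - z'‖ := norm_mul _ _
  constructor
  · have h2 : μ * (z - z') = (pw w z - pw w z') - (pw w z - pw w z' - μ * (z - z')) := by ring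
    have h7 : ‖μ * (z - z')‖ ≤ ‖pw w z - pw w z'‖ + ‖pw w z - pw w z' - μ * (z - z')‖ := by
      conv_lhs => rw [h2]
      exact norm_sub_le _ _
    rw [h6] at h7
    nlinarith
  · have h2 : pw w z - pw w z' = (pw w z - pw w z' - μ * (z - z')) + μ * (z - z') := by ring
    rw [h2]
    refine (norm_add_le _ _).trans ?_
    rw [h6]
    nlinarith

end Pool.Agent.N283.QL
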