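import Mathlib
import Pool.Agent.N283.QL.Sim

set_option autoImplicit false

open Complex Set Filter Topology

namespace Pool.Agent.N283.QL

lemma sw_sub (w : List Bool) (z z' : ℂ) : sw w z - sw w z' = (th : ℂ) ^ w.length * (z - z') := by
  induction w with
  | nil => simp [sw]
  | cons b w ih =>
    show sg b (sw w z) - sg b (sw w z') = _
    rw [sg_sub, ih, List.length_cons, pow_succ]
    ring

/-- zooming in -/
lemma zoom (w : List Bool) (p' y : ℂ) :
    ∃ y' : ℂ, y = sw w y' ∧ ‖y - sw w p'‖ = th ^ w.length * ‖y' - p'‖ := by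
  have hne : (th : ℂ) ^ w.length ≠ 0 := pow_ne_zero _ thC_ne
  refine ⟨p' + (y - sw w p') / (th : ℂ) ^ w.length, ?_, ?_⟩
  · have h1 := sw_sub w (p' + (y - sw w p') / (th : ℂ) ^ w.length) p'
    rw [add_sub_cancel_left, mul_div_cancel₀ _ hne] at h1
    linear_combination -h1
  · rw [add_sub_cancel_left, norm_div, norm_pow, Complex.norm_real, Real.norm_eq_abs,
      abs_of_pos th_pos, mul_div_cancel₀ _ (pow_pos th_pos _).ne']

def Lev (n : ℕ) (p : ℂ) : Prop := ∃ w : List Bool, w.length = n ∧ ∃ p' : ℂ, |p'.re| ≤ 1 ∧ p = sw w p'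

lemma sw_append (w w' : List Bool) (z : ℂ) : sw (w ++ w') z = sw w (sw w' z) := by
  induction w with
  | nil => rfl
  | cons b w ih =>
    show sg b (sw (w ++ w') z) = sg b (sw w (sw w' z))
    rw [ih]

lemma ratio_aux {A B a b m : ℝ} (hm : 0 < m) (hA : A ≤ (1 + 64 * th) * m * a)
    (hB : (1 - 64 * th) * m * b ≤ B) (hab : a ≤ 3 * b) (hb : 0 ≤ b) : A ≤ 4 * B := by
  have hth := th_pos
  have hth' := th_lt
  have h1 : (1 + 64 * th) * m * a ≤ (1 + 64 * th) * m * (3 * b) := by
    apply mul_le_mul_of_nonneg_left hab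
    positivity
  have h2 : 0 ≤ m * b := by positivity
  have h3 : (1 + 64 * th) * m * (3 * b) ≤ 4 * ((1 - 64 * th) * m * b) := by
    nlinarith
  linarith

/-- the metric definition of quasiconformality -/
theorem qc : ∀ x : ℂ, ∃ δ > (0 : ℝ), ∀ y z : ℂ, dist y x = dist z x → dist y x < δ →
    dist (f y) (f x) ≤ 4 * dist (f z) (f x) := by
  intro p
  have hth := th_pos
  have hth' := th_lt
  by_cases hall : ∀ n, Lev n p
  · refine ⟨1, one_pos, fun y z hyz hy => ?_⟩
    rcases eq_or_lt_of_le (dist_nonneg : 0 ≤ dist y p) with h0 | hpos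
    · have hy0 : y = p := dist_eq_zero.1 h0.symm
      have hz0 : z = p := dist_eq_zero.1 (by rw [← hyz, ← h0])
      rw [hy0, hz0, dist_self]
      simp
    · obtain ⟨n, hn1, hn2⟩ := exists_nat_pow_near_of_lt_one hpos hy.le hth (by linarith : th < 1)
      obtain ⟨w, hw, p', hp', rfl⟩ := hall n
      subst hw
      obtain ⟨y', rfl, hy'⟩ := zoom w p' y
      obtain ⟨z', rfl, hz'⟩ := zoom w p' z
      have hP : 0 < th ^ w.length := pow_pos hth _
      rw [dist_eq_norm] at hn1 hn2 hyz hpos hy
      rw [dist_eq_norm] at hyz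
      rw [hy', hz'] at hyz
      have hr : ‖y' - p'‖ = ‖z' - p'‖ := mul_left_cancel₀ hP.ne' hyz
      rw [hy', pow_succ] at hn1
      rw [hy'] at hn2
      have h1 : th < ‖y' - p'‖ := lt_of_mul_lt_mul_left hn1 hP.le
      have h2 : ‖y' - p'‖ ≤ 1 := by
        have : th ^ w.length * ‖y' - p'‖ ≤ th ^ w.length * 1 := by rw [mul_one]; exact hn2
        exact le_of_mul_le_mul_left this hP
      have hre : ∀ t : ℂ, ‖t - p'‖ ≤ 1 → |t.re| ≤ 100 := by
        intro t ht
        have h3 : |(t - p').re| ≤ 1 := (abs_re_le_norm _).trans ht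
        have h4 : t.re = (t - p').re + p'.re := by rw [sub_re]; ring
        rw [h4]
        exact (abs_add_le _ _).trans (by linarith)
      have hup : ∀ t : ℂ, ‖f t - f p'‖ ≤ 5 / 4 * (‖t - p'‖ + th / 4) := by
        intro t
        rw [f_eq, f_eq]
        refine (h_dist_le _ _).trans ?_
        have h3 : Pi u t - Pi u p' = (t - p') + (Pi u t - t) - (Pi u p' - p') := by ring
        have h4 : ‖Pi u t - Pi u p'‖ ≤ ‖t - p'‖ + ‖Pi u t - t‖ + ‖Pi u p' - p'‖ := by
          rw [h3]
          exact (norm_sub_le _ _).trans (by gcongr; exact norm_add_le _ _)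
        have := Pi_near t
        have := Pi_near p'
        linarith
      have hlow : ∀ t : ℂ, 3 / 4 * (‖t - p'‖ - th / 4) ≤ ‖f t - f p'‖ := by
        intro t
        rw [f_eq, f_eq]
        refine le_trans ?_ (h_dist_ge _ _)
        have h3 : t - p' = (Pi u t - Pi u p') - (Pi u t - t) + (Pi u p' - p') := by ring
        have h4 : ‖t - p'‖ ≤ ‖Pi u t - Pi u p'‖ + ‖Pi u t - t‖ + ‖Pi u p' - p'‖ := by
          conv_lhs => rw [h3]
          exact (norm_add_le _ _).trans (by gcongr; exact norm_sub_le _ _)
        have := Pi_near t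
        have := Pi_near p'
        linarith
      have hfp : |(f p').re| ≤ 10 := (f_strip hp').trans (by norm_num)
      obtain ⟨m, hm, hmb⟩ := near_sim' w (f p') hfp
      have hy8 : ‖f y' - f p'‖ ≤ 8 := (hup y').trans (by linarith)
      have hz8 : ‖f z' - f p'‖ ≤ 8 := (hup z').trans (by rw [← hr]; linarith)
      have h08 : ‖f p' - f p'‖ ≤ 8 := by simp
      rw [f_sw w (hre y' h2), f_sw w (hre z' (by rw [← hr]; exact h2)),
        f_sw w (by linarith : |p'.re| ≤ 100), dist_eq_norm, dist_eq_norm]
      have hA := (hmb _ _ hy8 h08).2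
      have hB := (hmb _ _ hz8 h08).1
      refine ratio_aux hm hA hB ?_ (norm_nonneg _)
      have h5 := hup y'
      have h6 := hlow z'
      rw [← hr] at h6
      linarith
  · push Not at hall
    obtain ⟨n, hn⟩ := hall
    by_cases h0 : Lev 0 p
    · -- find the last level
      have hex : ∃ n, Lev n p ∧ ¬ Lev (n + 1) p := by
        by_contra hcon
        push Not at hcon
        have : ∀ n, Lev n p := by
          intro n
          induction n with
          | zero => exact h0
          | succ n ih => exact hcon n ih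
        exact hn (this n)
      obtain ⟨n, ⟨w, hw, p', hp', rfl⟩, hn2⟩ := hex
      have hfar : ∀ b, th < |p'.re - c b| := by
        rcases child_or_far p' with ⟨b, ξ, hξ, rfl⟩ | h
        · exfalso
          apply hn2
          refine ⟨w ++ [b], by simp [hw], ξ, hξ, ?_⟩
          rw [sw_append]
          rfl
        · exact h
      set d := min (min (|p'.re - c false| - th) (|p'.re - c true| - th)) 1 with hd
      have hdpos : 0 < d := by
        rw [hd]
        refine lt_min (lt_min ?_ ?_) one_pos
        · linarith [hfar false]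
        · linarith [hfar true]
      have hP : 0 < th ^ w.length := pow_pos hth _
      refine ⟨th ^ w.length * d, by positivity, fun y z hyz hy => ?_⟩
      obtain ⟨y', rfl, hy'⟩ := zoom w p' y
      obtain ⟨z', rfl, hz'⟩ := zoom w p' z
      rw [dist_eq_norm] at hyz hy
      rw [dist_eq_norm] at hyz
      rw [hy', hz'] at hyz
      have hr : ‖y' - p'‖ = ‖z' - p'‖ := mul_left_cancel₀ hP.ne' hyz
      rw [hy'] at hy
      have h1 : ‖y' - p'‖ < d := lt_of_mul_lt_mul_left hy hP.le
      have hd1 : d ≤ 1 := min_le_right _ _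
      have hre : ∀ t : ℂ, ‖t - p'‖ ≤ 1 → |t.re| ≤ 100 := by
        intro t ht
        have h3 : |(t - p').re| ≤ 1 := (abs_re_le_norm _).trans ht
        have h4 : t.re = (t - p').re + p'.re := by rw [sub_re]; ring
        rw [h4]
        exact (abs_add_le _ _).trans (by linarith)
      have hfh : ∀ t : ℂ, ‖t - p'‖ < d → f t = h t := by
        intro t ht
        apply f_far
        intro b
        have h3 : |(t - p').re| < d := (abs_re_le_norm _).trans_lt ht
        have h4 : p'.re - c b = (t.re - c b) - (t - p').re := by rw [sub_re]; ring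
        have h5 : |p'.re - c b| ≤ |t.re - c b| + |(t - p').re| := by
          conv_lhs => rw [h4]
          exact abs_sub _ _
        have h6 : d ≤ |p'.re - c b| - th := by
          cases b with
          | false => exact (min_le_left _ _).trans (min_le_left _ _)
          | true => exact (min_le_left _ _).trans (min_le_right _ _)
        linarith
      have hfy := hfh y' h1
      have hfz := hfh z' (by rw [← hr]; exact h1)
      have hfp := hfh p' (by simpa using hdpos)
      have hfp10 : |(f p').re| ≤ 10 := (f_strip hp').trans (by norm_num)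
      obtain ⟨m, hm, hmb⟩ := near_sim' w (f p') hfp10
      have hup : ∀ t : ℂ, ‖t - p'‖ < d → ‖f t - f p'‖ ≤ 5 / 4 * ‖t - p'‖ := by
        intro t ht
        rw [hfh t ht, hfp]
        exact h_dist_le _ _
      have hz1 : ‖z' - p'‖ < d := by rw [← hr]; exact h1
      have hy8 : ‖f y' - f p'‖ ≤ 8 := (hup y' h1).trans (by linarith)
      have hz8 : ‖f z' - f p'‖ ≤ 8 := (hup z' hz1).trans (by linarith)
      have h08 : ‖f p' - f p'‖ ≤ 8 := by simp
      rw [f_sw w (hre y' (by linarith)), f_sw w (hre z' (by linarith)),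
        f_sw w (by linarith : |p'.re| ≤ 100), dist_eq_norm, dist_eq_norm]
      have hA := (hmb _ _ hy8 h08).2
      have hB := (hmb _ _ hz8 h08).1
      refine ratio_aux hm hA hB ?_ (norm_nonneg _)
      have h5 := hup y' h1
      have h6 : 3 / 4 * ‖z' - p'‖ ≤ ‖f z' - f p'‖ := by
        rw [hfz, hfp]
        exact h_dist_ge _ _
      rw [← hr] at h6
      have := norm_nonneg (y' - p')
      linarith
    · have h1 : 1 < |p.re| := by
        by_contra hcon
        push Not at hcon
        exact h0 ⟨[], rfl, p, hcon, rfl⟩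
      refine ⟨|p.re| - 1, by linarith, fun y z hyz hy => ?_⟩
      have hout : ∀ t : ℂ, dist t p < |p.re| - 1 → f t = t := by
        intro t ht
        apply f_out
        rw [dist_eq_norm] at ht
        have h3 : |(t - p).re| < |p.re| - 1 := (abs_re_le_norm _).trans_lt ht
        have h4 : p.re = t.re - (t - p).re := by rw [sub_re]; ring
        have h5 : |p.re| ≤ |t.re| + |(t - p).re| := by
          conv_lhs => rw [h4]
          exact abs_sub _ _
        linarith
      rw [hout y hy, hout z (by rw [← hyz]; exact hy), hout p (by rw [dist_self]; linarith), ← hyz]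
      have := dist_nonneg (x := y) (y := p)
      linarith

end Pool.Agent.N283.QL
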