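import Mathlib
import Pool.Agent.N283.QL.QC

set_option autoImplicit false

open Complex Set Filter Topology

namespace Pool.Agent.N283.QL

/-- point with given coordinates -/
noncomputable def pt (x y : ℝ) : ℂ := (x : ℂ) + (y : ℂ) * I

@[simp] lemma pt_re (x y : ℝ) : (pt x y).re = x := by simp [pt]
@[simp] lemma pt_im (x y : ℝ) : (pt x y).im = y := by simp [pt]

lemma sg_pt (b : Bool) (x y : ℝ) : sg b (pt x y) = pt (c b + th * x) (th * y) := by
  unfold sg pt; push_cast; ring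

/-- the points of the Cantor set -/
noncomputable def X (ω : ℕ → Bool) : ℝ := 1 / 4 * Cardinal.cantorFunction th ω

lemma X_succ (ω : ℕ → Bool) : X ω = c (ω 0) + th * X (fun n => ω (n + 1)) := by
  unfold X
  rw [Cardinal.cantorFunction_succ ω th_pos.le (by have := th_lt; linarith)]
  unfold c
  cases ω 0 <;> simp <;> ring

lemma X_nonneg (ω : ℕ → Bool) : 0 ≤ X ω := by
  unfold X Cardinal.cantorFunction
  have : 0 ≤ ∑' n, Cardinal.cantorFunctionAux th ω n :=
    tsum_nonneg fun n => Cardinal.cantorFunctionAux_nonneg th_pos.le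
  positivity

lemma X_le (ω : ℕ → Bool) : X ω ≤ 1 / 2 := by
  have h1 : Cardinal.cantorFunction th ω ≤ Cardinal.cantorFunction th (fun _ => true) :=
    Cardinal.cantorFunction_le th_pos.le (by have := th_lt; linarith) (fun n _ => rfl)
  have h2 : Cardinal.cantorFunction th (fun _ => true) = 1 / (1 - th) := by
    unfold Cardinal.cantorFunction
    have : (fun n => Cardinal.cantorFunctionAux th (fun _ => true) n) = fun n => th ^ n := by
      funext n
      exact Cardinal.cantorFunctionAux_true rfl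
    rw [this, tsum_geometric_of_lt_one th_pos.le (by have := th_lt; linarith), one_div]
  have h3 : 1 / (1 - th) ≤ 2 := by
    have := th_lt
    rw [div_le_iff₀ (by linarith)]
    linarith
  unfold X
  rw [h2] at h1
  linarith

lemma X_injective : Function.Injective X := by
  intro ω ω' h
  unfold X at h
  have h2 : Cardinal.cantorFunction th ω = Cardinal.cantorFunction th ω' := by linarith
  exact Cardinal.cantorFunction_injective th_pos (by have := th_lt; linarith) h2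

lemma X_continuous : Continuous X := by
  unfold X Cardinal.cantorFunction
  apply Continuous.mul continuous_const
  refine continuous_tsum (u := fun n => th ^ n) ?_ ?_ ?_
  · intro n
    unfold Cardinal.cantorFunctionAux
    have h1 : Continuous fun b : Bool => (cond b (th ^ n) 0 : ℝ) := continuous_of_discreteTopology
    exact h1.comp (continuous_apply n)
  · exact summable_geometric_of_lt_one th_pos.le (by have := th_lt; linarith)
  · intro n ω
    unfold Cardinal.cantorFunctionAux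
    have := th_pos
    cases ω n
    · simp; positivity
    · simp [abs_of_pos this]

/-- the Cantor set -/
def E : Set ℝ := range X

lemma mk_seq : Cardinal.mk (ℕ → Bool) = Cardinal.continuum := by simp

lemma E_uncountable : ¬ E.Countable := by
  intro h
  have h1 : (univ : Set (ℕ → Bool)).Countable := by
    have h0 := h.preimage_of_injOn (f := X) X_injective.injOn
    have : X ⁻¹' E = univ := by
      ext ω
      simp [E]
    rwa [this] at h0
  have h2 : Countable (ℕ → Bool) := Set.countable_univ_iff.1 h1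
  have h3 : Cardinal.mk (ℕ → Bool) ≤ Cardinal.aleph0 := Cardinal.mk_le_aleph0_iff.2 h2
  rw [mk_seq] at h3
  exact absurd h3 (not_le.2 Cardinal.aleph0_lt_continuum)

lemma E_totallyDisconnected : IsTotallyDisconnected E := by
  have h1 : Topology.IsClosedEmbedding X := X_continuous.isClosedEmbedding X_injective
  exact h1.isEmbedding.isTotallyDisconnected_range.2 inferInstance

lemma code (n : ℕ) (ω : ℕ → Bool) : ∃ w : List Bool, w.length = n ∧ ∃ ω' : ℕ → Bool, ∀ y : ℝ,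
    pt (X ω) (th ^ n * y) = sw w (pt (X ω') y) := by
  induction n generalizing ω with
  | zero => exact ⟨[], rfl, ω, fun y => by simp [sw]⟩
  | succ n ih =>
    obtain ⟨w, hw, ω', hω'⟩ := ih (fun n => ω (n + 1))
    refine ⟨ω 0 :: w, by simp [hw], ω', fun y => ?_⟩
    show _ = sg (ω 0) (sw w (pt (X ω') y))
    rw [← hω' y, sg_pt, ← X_succ, pow_succ]
    congr 1
    ring

lemma sqrt_gain {P s : ℝ} (hP : 0 < P) (hs : s ^ 2 ≤ 3 * P ^ 2) :
    P + s ^ 2 / (3 * P) ≤ ‖(s : ℂ) + (P : ℂ) * I‖ := by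
  rw [Complex.norm_add_mul_I]
  apply Real.le_sqrt_of_sq_le
  have h1 : (P + s ^ 2 / (3 * P)) ^ 2 = P ^ 2 + 2 * s ^ 2 / 3 + s ^ 2 * (s ^ 2 / (9 * P ^ 2)) := by
    field_simp
    ring
  rw [h1]
  have h2 : s ^ 2 / (9 * P ^ 2) ≤ 1 / 3 := by
    rw [div_le_div_iff₀ (by positivity) (by norm_num)]
    linarith
  have h3 : s ^ 2 * (s ^ 2 / (9 * P ^ 2)) ≤ s ^ 2 * (1 / 3) :=
    mul_le_mul_of_nonneg_left h2 (sq_nonneg s)
  linarith

lemma pair_gain {P : ℝ} (hP : 0 < P) (ζ : ℂ) (hs : ζ.re ^ 2 ≤ 3 * P ^ 2) :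
    2 * P + 2 * (ζ.re ^ 2 / (3 * P)) ≤ ‖(P : ℂ) * I + ζ‖ + ‖(P : ℂ) * I - ζ‖ := by
  have h1 : ‖(P : ℂ) * I - ζ‖ = ‖(P : ℂ) * I + (starRingEnd ℂ) ζ‖ := by
    rw [← Complex.norm_conj ((P : ℂ) * I - ζ), ← norm_neg]
    congr 1
    simp [add_comm]
  rw [h1]
  have h2 : ‖((P : ℂ) * I + ζ) + ((P : ℂ) * I + (starRingEnd ℂ) ζ)‖ ≤
    ‖(P : ℂ) * I + ζ‖ + ‖(P : ℂ) * I + (starRingEnd ℂ) ζ‖ := norm_add_le _ _
  have h3 : ((P : ℂ) * I + ζ) + ((P : ℂ) * I + (starRingEnd ℂ) ζ) =
      2 * ((ζ.re : ℂ) + (P : ℂ) * I) := by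
    have := Complex.add_conj ζ
    push_cast at this
    linear_combination this
  rw [h3, norm_mul] at h2
  have h4 : ‖(2 : ℂ)‖ = 2 := by simp
  rw [h4] at h2
  have := sqrt_gain hP hs
  linarith

/-- four quarter chords of the wiggle beat the chord -/
lemma four_gain {P : ℝ} (hP : 0 < P) (A : ℂ) (hA : 2 * ‖A‖ ^ 2 ≤ 3 * P ^ 2) :
    4 * P + 4 * ‖A‖ ^ 2 / (3 * P) ≤
      ‖(P : ℂ) * I + A * (I - 1)‖ + ‖(P : ℂ) * I + A * I * (I - 1)‖ +
      ‖(P : ℂ) * I + A * (-1) * (I - 1)‖ + ‖(P : ℂ) * I + A * (-I) * (I - 1)‖ := by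
  set ζ := A * (I - 1) with hζ
  have e1 : A * I * (I - 1) = I * ζ := by rw [hζ]; ring
  have e2 : (P : ℂ) * I + A * (-1) * (I - 1) = (P : ℂ) * I - ζ := by rw [hζ]; ring
  have e3 : (P : ℂ) * I + A * (-I) * (I - 1) = (P : ℂ) * I - I * ζ := by rw [hζ]; ring
  rw [e1, e2, e3]
  have hn : ζ.re ^ 2 + ζ.im ^ 2 = 2 * ‖A‖ ^ 2 := by
    have h1 : ‖ζ‖ ^ 2 = ζ.re ^ 2 + ζ.im ^ 2 := by
      rw [← Complex.normSq_eq_norm_sq, Complex.normSq_apply]; ring
    rw [← h1, hζ, norm_mul, mul_pow]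
    have h2 : ‖(I - 1 : ℂ)‖ ^ 2 = 2 := by
      rw [← Complex.normSq_eq_norm_sq, Complex.normSq_apply]
      simp
      norm_num
    rw [h2]
    ring
  have h1 := pair_gain hP ζ (by nlinarith [sq_nonneg ζ.im])
  have h2re : (I * ζ).re = -ζ.im := by simp
  have h2 := pair_gain hP (I * ζ) (by rw [h2re]; nlinarith [sq_nonneg ζ.re])
  rw [h2re] at h2
  have h3 : 4 * ‖A‖ ^ 2 / (3 * P) = 2 * (ζ.re ^ 2 / (3 * P)) + 2 * ((-ζ.im) ^ 2 / (3 * P)) := by
    have : 4 * ‖A‖ ^ 2 = 2 * (ζ.re ^ 2 + ζ.im ^ 2) := by rw [hn]; ring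
    rw [this]
    ring
  rw [h3]
  linarith

end Pool.Agent.N283.QL
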