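import Mathlib
import Pool.Agent.N283.QL.Var

set_option autoImplicit false

open Complex Set Filter Topology

namespace Pool.Agent.N283.QL

lemma f_near_h (z : ℂ) : ‖f z - h z‖ ≤ th / 4 := by
  rw [f_eq]
  refine (h_dist_le _ _).trans ?_
  have := Pi_near z
  have := th_pos
  linarith

lemma exp_pt (x s : ℝ) (m : ℕ) :
    Complex.exp (pt x (s + m * (Real.pi / 2))) = Complex.exp (pt x s) * I ^ m := by
  have e : pt x (s + m * (Real.pi / 2)) = pt x s + m * (((Real.pi / 2 : ℝ) : ℂ) * I) := by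
    unfold pt; push_cast; ring
  rw [e, Complex.exp_add, Complex.exp_nat_mul]
  congr 2
  push_cast
  exact Complex.exp_pi_div_two_mul_I

lemma h_pt {x : ℝ} (hx0 : 0 ≤ x) (hx1 : x ≤ 1 / 2) (s : ℝ) (m : ℕ) :
    h (pt x (s + m * (Real.pi / 2))) = pt x s + m * (((Real.pi / 2 : ℝ) : ℂ) * I) +
      ((1 / 50 : ℝ) * Complex.exp (pt x s)) * I ^ m := by
  rw [h_in (by rw [pt_re, abs_of_nonneg hx0]; exact hx1), exp_pt]
  unfold pt
  push_cast
  ring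

lemma f_diff {x : ℝ} (hx0 : 0 ≤ x) (hx1 : x ≤ 1 / 2) (s : ℝ) (m n : ℕ) :
    ‖(f (pt x (s + n * (Real.pi / 2))) - f (pt x (s + m * (Real.pi / 2)))) -
      (((n : ℂ) - m) * (((Real.pi / 2 : ℝ) : ℂ) * I) +
        ((1 / 50 : ℝ) * Complex.exp (pt x s)) * (I ^ n - I ^ m))‖ ≤ th / 2 := by
  have e : (f (pt x (s + n * (Real.pi / 2))) - f (pt x (s + m * (Real.pi / 2)))) -
      (((n : ℂ) - m) * (((Real.pi / 2 : ℝ) : ℂ) * I) +
        ((1 / 50 : ℝ) * Complex.exp (pt x s)) * (I ^ n - I ^ m)) =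
      (f (pt x (s + n * (Real.pi / 2))) - h (pt x (s + n * (Real.pi / 2)))) -
        (f (pt x (s + m * (Real.pi / 2))) - h (pt x (s + m * (Real.pi / 2)))) := by
    rw [h_pt hx0 hx1, h_pt hx0 hx1]; ring
  rw [e]
  refine (norm_sub_le _ _).trans ?_
  have := f_near_h (pt x (s + n * (Real.pi / 2)))
  have := f_near_h (pt x (s + m * (Real.pi / 2)))
  linarith

lemma amp_bounds {x : ℝ} (hx0 : 0 ≤ x) (hx1 : x ≤ 1 / 2) (s : ℝ) :
    1 / 50 ≤ ‖((1 / 50 : ℝ) : ℂ) * Complex.exp (pt x s)‖ ∧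
      ‖((1 / 50 : ℝ) : ℂ) * Complex.exp (pt x s)‖ ≤ 1 / 25 := by
  have hAn : ‖((1 / 50 : ℝ) : ℂ) * Complex.exp (pt x s)‖ = 1 / 50 * Real.exp x := by
    rw [norm_mul, Complex.norm_exp, pt_re, Complex.norm_real, Real.norm_eq_abs,
      abs_of_pos (by norm_num : (0 : ℝ) < 1 / 50)]
  rw [hAn]
  have := Real.one_le_exp hx0
  have : Real.exp x ≤ 2 := (Real.exp_le_exp.2 hx1).trans exp_half_lt.le
  constructor <;> linarith

/-- lower bound of a quarter chord of `f` -/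
lemma f_step {x : ℝ} (hx0 : 0 ≤ x) (hx1 : x ≤ 1 / 2) (s : ℝ) (m : ℕ) {a b : ℝ} (ha : a = m)
    (hb : b = m + 1) :
    ‖((Real.pi / 2 : ℝ) : ℂ) * I + ((1 / 50 : ℝ) * Complex.exp (pt x s)) * I ^ m * (I - 1)‖ -
      th / 2 ≤ ‖f (pt x (s + b * (Real.pi / 2))) - f (pt x (s + a * (Real.pi / 2)))‖ := by
  have h1 := f_diff hx0 hx1 s m (m + 1)
  have e : (((m + 1 : ℕ) : ℂ) - m) * (((Real.pi / 2 : ℝ) : ℂ) * I) +
      ((1 / 50 : ℝ) * Complex.exp (pt x s)) * (I ^ (m + 1) - I ^ m) =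
      ((Real.pi / 2 : ℝ) : ℂ) * I + ((1 / 50 : ℝ) * Complex.exp (pt x s)) * I ^ m * (I - 1) := by
    push_cast
    ring
  rw [e] at h1
  have hb' : b = ((m + 1 : ℕ) : ℝ) := by rw [hb]; push_cast; ring
  rw [ha, hb']
  set D := f (pt x (s + ((m + 1 : ℕ) : ℝ) * (Real.pi / 2))) - f (pt x (s + m * (Real.pi / 2)))
  set V := ((Real.pi / 2 : ℝ) : ℂ) * I + ((1 / 50 : ℝ) * Complex.exp (pt x s)) * I ^ m * (I - 1)
  have h3 := norm_sub_le D (D - V)
  rw [sub_sub_cancel] at h3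
  linarith

/-- upper bound of a period chord of `f` -/
lemma f_total {x : ℝ} (hx0 : 0 ≤ x) (hx1 : x ≤ 1 / 2) (s : ℝ) :
    ‖f (pt x (s + 4 * (Real.pi / 2))) - f (pt x (s + 0 * (Real.pi / 2)))‖ ≤
      4 * (Real.pi / 2) + th / 2 := by
  have h1 := f_diff hx0 hx1 s 0 4
  have e : (((4 : ℕ) : ℂ) - ((0 : ℕ) : ℂ)) * (((Real.pi / 2 : ℝ) : ℂ) * I) +
      ((1 / 50 : ℝ) * Complex.exp (pt x s)) * (I ^ 4 - I ^ 0) =
      4 * (((Real.pi / 2 : ℝ) : ℂ) * I) := by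
    rw [Complex.I_pow_four]
    push_cast
    ring
  rw [e, Nat.cast_ofNat, Nat.cast_zero] at h1
  set D := f (pt x (s + 4 * (Real.pi / 2))) - f (pt x (s + 0 * (Real.pi / 2)))
  have h2 : ‖(4 : ℂ) * (((Real.pi / 2 : ℝ) : ℂ) * I)‖ = 4 * (Real.pi / 2) := by
    rw [norm_mul, norm_mul, Complex.norm_I, Complex.norm_real, Real.norm_eq_abs,
      abs_of_pos (by positivity : (0 : ℝ) < Real.pi / 2)]
    norm_num
  have h3 := norm_add_le (D - 4 * (((Real.pi / 2 : ℝ) : ℂ) * I)) (4 * (((Real.pi / 2 : ℝ) : ℂ) * I))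
  rw [sub_add_cancel, h2] at h3
  linarith

lemma f_near {x : ℝ} (hx0 : 0 ≤ x) (hx1 : x ≤ 1 / 2) (s : ℝ) (m : ℕ) (hm : m ≤ 4) {a : ℝ}
    (ha : a = m) :
    ‖f (pt x (s + a * (Real.pi / 2))) - f (pt x (s + 0 * (Real.pi / 2)))‖ ≤ 8 := by
  have h1 := f_diff hx0 hx1 s 0 m
  rw [← ha, Nat.cast_zero] at h1
  set D := f (pt x (s + a * (Real.pi / 2))) - f (pt x (s + 0 * (Real.pi / 2)))
  set V := ((m : ℂ) - ((0 : ℕ) : ℂ)) * (((Real.pi / 2 : ℝ) : ℂ) * I) +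
        ((1 / 50 : ℝ) * Complex.exp (pt x s)) * (I ^ m - I ^ 0) with hV
  have h3 := norm_add_le (D - V) V
  rw [sub_add_cancel] at h3
  have hpi' := Real.pi_lt_d2
  have hpi0 := Real.pi_pos
  have h4 : ‖V‖ ≤ 4 * (Real.pi / 2) + 1 / 25 * 2 := by
    refine (norm_add_le _ _).trans (add_le_add ?_ ?_)
    · rw [norm_mul, norm_mul, Complex.norm_I, Complex.norm_real, Real.norm_eq_abs,
        abs_of_pos (by positivity : (0 : ℝ) < Real.pi / 2)]
      have h5 : ‖(m : ℂ) - ((0 : ℕ) : ℂ)‖ ≤ 4 := by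
        simp only [Nat.cast_zero, sub_zero, Complex.norm_natCast]
        exact_mod_cast hm
      rw [mul_one]
      exact mul_le_mul_of_nonneg_right h5 (by positivity)
    · rw [norm_mul]
      have h5 : ‖(I : ℂ) ^ m - I ^ 0‖ ≤ 2 := by
        refine (norm_sub_le _ _).trans ?_
        rw [norm_pow, norm_pow, Complex.norm_I, one_pow, one_pow]; norm_num
      exact mul_le_mul (amp_bounds hx0 hx1 s).2 h5 (norm_nonneg _) (by norm_num)
  have := th_lt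
  linarith

/-- quarter chord estimate -/
lemma quarter (w : List Bool) (ω : ℕ → Bool) (s : ℝ) :
    (1 + 1 / 100000) * ‖pw w (f (pt (X ω) (s + 4 * (Real.pi / 2)))) -
        pw w (f (pt (X ω) (s + 0 * (Real.pi / 2))))‖ ≤
      ‖pw w (f (pt (X ω) (s + 1 * (Real.pi / 2)))) - pw w (f (pt (X ω) (s + 0 * (Real.pi / 2))))‖ +
      ‖pw w (f (pt (X ω) (s + 2 * (Real.pi / 2)))) - pw w (f (pt (X ω) (s + 1 * (Real.pi / 2))))‖ +
      ‖pw w (f (pt (X ω) (s + 3 * (Real.pi / 2)))) - pw w (f (pt (X ω) (s + 2 * (Real.pi / 2))))‖ +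
      ‖pw w (f (pt (X ω) (s + 4 * (Real.pi / 2)))) - pw w (f (pt (X ω) (s + 3 * (Real.pi / 2))))‖ := by
  have hth := th_pos
  have hth' : th = 1 / 100000000 := rfl
  have hpi := Real.pi_gt_d2
  have hpi' := Real.pi_lt_d2
  have hX0 := X_nonneg ω
  have hX1 := X_le ω
  have s0 := f_step hX0 hX1 s 0 (a := 0) (b := 1) (by simp) (by simp)
  have s1 := f_step hX0 hX1 s 1 (a := 1) (b := 2) (by simp) (by norm_num)
  have s2 := f_step hX0 hX1 s 2 (a := 2) (b := 3) (by simp) (by norm_num)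
  have s3 := f_step hX0 hX1 s 3 (a := 3) (b := 4) (by simp) (by norm_num)
  rw [pow_zero, mul_one] at s0
  rw [pow_one] at s1
  rw [Complex.I_sq] at s2
  rw [Complex.I_pow_three] at s3
  have htot := f_total hX0 hX1 s
  have d0 := f_near hX0 hX1 s 0 (by norm_num) (a := 0) (by simp)
  have d1 := f_near hX0 hX1 s 1 (by norm_num) (a := 1) (by simp)
  have d2 := f_near hX0 hX1 s 2 (by norm_num) (a := 2) (by simp)
  have d3 := f_near hX0 hX1 s 3 (by norm_num) (a := 3) (by simp)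
  have d4 := f_near hX0 hX1 s 4 (by norm_num) (a := 4) (by simp)
  obtain ⟨hA1, hA2⟩ := amp_bounds hX0 hX1 s
  have hPpos : (0 : ℝ) < Real.pi / 2 := by positivity
  have hP63 : 4 * (Real.pi / 2) < 6.3 := by linarith
  have hgain := four_gain hPpos ((1 / 50 : ℝ) * Complex.exp (pt (X ω) s)) (by
    have : ‖((1 / 50 : ℝ) : ℂ) * Complex.exp (pt (X ω) s)‖ ^ 2 ≤ (1 / 25) ^ 2 :=
      pow_le_pow_left₀ (norm_nonneg _) hA2 2
    nlinarith)
  have hre : |(f (pt (X ω) (s + 0 * (Real.pi / 2)))).re| ≤ 10 := by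
    refine (f_strip ?_).trans (by norm_num)
    rw [pt_re, abs_of_nonneg hX0]; linarith
  obtain ⟨m, hm, hmb⟩ := near_sim' w (f (pt (X ω) (s + 0 * (Real.pi / 2)))) hre
  have b4 := (hmb _ _ d4 d0).2
  have c0 := (hmb _ _ d1 d0).1
  have c1 := (hmb _ _ d2 d1).1
  have c2 := (hmb _ _ d3 d2).1
  have c3 := (hmb _ _ d4 d3).1
  have hg2 : 1 / 3200 ≤ 4 * ‖((1 / 50 : ℝ) : ℂ) * Complex.exp (pt (X ω) s)‖ ^ 2 /
      (3 * (Real.pi / 2)) := by
    rw [le_div_iff₀ (by positivity)]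
    have h1 : (1 / 50) ^ 2 ≤ ‖((1 / 50 : ℝ) : ℂ) * Complex.exp (pt (X ω) s)‖ ^ 2 :=
      pow_le_pow_left₀ (by norm_num) hA1 2
    nlinarith
  generalize ‖f (pt (X ω) (s + 1 * (Real.pi / 2))) - f (pt (X ω) (s + 0 * (Real.pi / 2)))‖ = Q0 at *
  generalize ‖f (pt (X ω) (s + 2 * (Real.pi / 2))) - f (pt (X ω) (s + 1 * (Real.pi / 2)))‖ = Q1 at *
  generalize ‖f (pt (X ω) (s + 3 * (Real.pi / 2))) - f (pt (X ω) (s + 2 * (Real.pi / 2)))‖ = Q2 at *
  generalize ‖f (pt (X ω) (s + 4 * (Real.pi / 2))) - f (pt (X ω) (s + 3 * (Real.pi / 2)))‖ = Q3 at *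
  generalize ‖f (pt (X ω) (s + 4 * (Real.pi / 2))) - f (pt (X ω) (s + 0 * (Real.pi / 2)))‖ = R at *
  generalize ‖pw w (f (pt (X ω) (s + 4 * (Real.pi / 2)))) -
        pw w (f (pt (X ω) (s + 0 * (Real.pi / 2))))‖ = B at *
  generalize Real.pi / 2 = P at *
  have hsum : 4 * P + 1 / 3200 - 2 * th ≤ Q0 + Q1 + Q2 + Q3 := by linarith
  have hfin : (1 + 1 / 100000) * ((1 + 64 * th) * (4 * P + th / 2)) ≤
      (1 - 64 * th) * (4 * P + 1 / 3200 - 2 * th) := by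
    rw [hth']
    norm_num at hP63 ⊢
    linarith
  have h1 : B ≤ (1 + 64 * th) * m * (4 * P + th / 2) :=
    b4.trans (mul_le_mul_of_nonneg_left htot (by positivity))
  have h2 : m * ((1 - 64 * th) * (4 * P + 1 / 3200 - 2 * th)) ≤
      m * ((1 - 64 * th) * (Q0 + Q1 + Q2 + Q3)) := by
    apply mul_le_mul_of_nonneg_left _ hm.le
    apply mul_le_mul_of_nonneg_left hsum
    rw [hth']; norm_num
  have h3 := mul_le_mul_of_nonneg_left hfin hm.le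
  linarith

end Pool.Agent.N283.QL
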