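import Mathlib
import Pool.Agent.N283.QL.Final

set_option autoImplicit false

open Complex Set Filter Topology

namespace Pool.Agent.N283.QL

/-- a quarter of the number of subdivisions -/
def NN : ℕ := 25000000

lemma th_NN : th * (4 * (NN : ℝ)) = 1 := by
  unfold th NN; norm_num

/-- the image of a vertical line over the Cantor set -/
noncomputable def F (ω : ℕ → Bool) (y : ℝ) : ℂ := f (pt (X ω) y)

lemma tri (g : ℕ → ℂ) (N : ℕ) :
    ‖g (1 * N) - g (0 * N)‖ + ‖g (2 * N) - g (1 * N)‖ + ‖g (3 * N) - g (2 * N)‖ +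
      ‖g (4 * N) - g (3 * N)‖ ≤ ∑ j ∈ Finset.range (4 * N), ‖g (j + 1) - g j‖ := by
  have key : ∀ a b : ℕ, a ≤ b → ‖g b - g a‖ ≤ ∑ j ∈ Finset.Ico a b, ‖g (j + 1) - g j‖ := by
    intro a b hab
    have := dist_le_Ico_sum_dist g hab
    rw [dist_comm, dist_eq_norm] at this
    refine this.trans (le_of_eq ?_)
    apply Finset.sum_congr rfl
    intro j _
    rw [dist_comm, dist_eq_norm]
  have h1 := key (0 * N) (1 * N) (by omega)
  have h2 := key (1 * N) (2 * N) (by omega)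
  have h3 := key (2 * N) (3 * N) (by omega)
  have h4 := key (3 * N) (4 * N) (by omega)
  have e1 := Finset.sum_Ico_consecutive (fun j => ‖g (j + 1) - g j‖)
    (show 0 * N ≤ 1 * N by omega) (show 1 * N ≤ 2 * N by omega)
  have e2 := Finset.sum_Ico_consecutive (fun j => ‖g (j + 1) - g j‖)
    (show 0 * N ≤ 2 * N by omega) (show 2 * N ≤ 3 * N by omega)
  have e3 := Finset.sum_Ico_consecutive (fun j => ‖g (j + 1) - g j‖)
    (show 0 * N ≤ 3 * N by omega) (show 3 * N ≤ 4 * N by omega)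
  rw [Finset.range_eq_Ico]
  have e0 : (0 : ℕ) = 0 * N := by omega
  rw [zero_mul] at *
  linarith

lemma growth (ω : ℕ → Bool) (n : ℕ) (y : ℝ) :
    (1 + 1 / 100000) * ‖F ω (y + 2 * Real.pi * th ^ n) - F ω y‖ ≤
      ∑ j ∈ Finset.range (4 * NN), ‖F ω (y + 2 * Real.pi * th ^ (n + 1) * ((j + 1 : ℕ) : ℝ)) -
        F ω (y + 2 * Real.pi * th ^ (n + 1) * (j : ℝ))‖ := by
  obtain ⟨w, hw, ω', hω'⟩ := code n ω
  have hP : (0 : ℝ) < th ^ n := pow_pos th_pos n
  have hF : ∀ t : ℝ, F ω (th ^ n * t) = pw w (f (pt (X ω') t)) := by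
    intro t
    unfold F
    rw [hω', f_sw]
    rw [pt_re, abs_of_nonneg (X_nonneg ω')]
    have := X_le ω'
    linarith
  have hq := quarter w ω' (y / th ^ n)
  simp only [← hF] at hq
  have e : ∀ a : ℝ, th ^ n * (y / th ^ n + a * (Real.pi / 2)) = y + a * (Real.pi / 2) * th ^ n := by
    intro a
    field_simp
  simp only [e] at hq
  have ht := tri (fun j : ℕ => F ω (y + 2 * Real.pi * th ^ (n + 1) * (j : ℝ))) NN
  have e2 : ∀ m : ℕ, y + 2 * Real.pi * th ^ (n + 1) * ((m * NN : ℕ) : ℝ) =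
      y + (m : ℝ) * (Real.pi / 2) * th ^ n := by
    intro m
    have h1 := th_NN
    rw [pow_succ]
    push_cast
    linear_combination (Real.pi / 2) * th ^ n * m * h1
  simp only [e2] at ht
  have e3 : y + 2 * Real.pi * th ^ n = y + 4 * (Real.pi / 2) * th ^ n := by ring
  have e4 : F ω y = F ω (y + 0 * (Real.pi / 2) * th ^ n) := by
    congr 1; ring
  rw [e3, e4]
  refine hq.trans ?_
  push_cast at ht
  push_cast
  exact ht

lemma var_ge (ω : ℕ → Bool) (m n : ℕ) (y : ℝ) :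
    ENNReal.ofReal ((1 + 1 / 100000) ^ m * ‖F ω (y + 2 * Real.pi * th ^ n) - F ω y‖) ≤
      eVariationOn (F ω) (Icc y (y + 2 * Real.pi * th ^ n)) := by
  have hpi := Real.pi_pos
  have hth := th_pos
  induction m generalizing n y with
  | zero =>
    rw [pow_zero, one_mul, ← dist_eq_norm, ← edist_dist]
    have hle : y ≤ y + 2 * Real.pi * th ^ n := by
      have : 0 ≤ 2 * Real.pi * th ^ n := by positivity
      linarith
    exact eVariationOn.edist_le _ ⟨hle, le_rfl⟩ ⟨le_rfl, hle⟩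
  | succ m ih =>
    set Y : ℕ → ℝ := fun j => y + 2 * Real.pi * th ^ (n + 1) * (j : ℝ) with hY
    have hmono : Monotone Y := by
      intro i j hij
      have h1 : (i : ℝ) ≤ j := by exact_mod_cast hij
      have : 2 * Real.pi * th ^ (n + 1) * (i : ℝ) ≤ 2 * Real.pi * th ^ (n + 1) * (j : ℝ) :=
        mul_le_mul_of_nonneg_left h1 (by positivity)
      simp only [hY]
      linarith
    have hsum := eVariationOn.sum (F ω) (s := univ) (n := 4 * NN) hmono (fun i _ _ => mem_univ _)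
    simp only [univ_inter] at hsum
    have hY0 : Y 0 = y := by simp [hY]
    have hYN : Y (4 * NN) = y + 2 * Real.pi * th ^ n := by
      have h1 := th_NN
      simp only [hY]
      rw [pow_succ]
      push_cast
      linear_combination (2 * Real.pi) * th ^ n * h1
    rw [hY0, hYN] at hsum
    rw [← hsum]
    have hYs : ∀ j : ℕ, Y (j + 1) = Y j + 2 * Real.pi * th ^ (n + 1) := by
      intro j
      simp only [hY]
      push_cast
      ring
    have h1 : ENNReal.ofReal ((1 + 1 / 100000) ^ (m + 1) *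
        ‖F ω (y + 2 * Real.pi * th ^ n) - F ω y‖) ≤
        ∑ j ∈ Finset.range (4 * NN), ENNReal.ofReal ((1 + 1 / 100000) ^ m *
          ‖F ω (Y (j + 1)) - F ω (Y j)‖) := by
      rw [← ENNReal.ofReal_sum_of_nonneg (fun i _ => by positivity), ← Finset.mul_sum]
      apply ENNReal.ofReal_le_ofReal
      rw [pow_succ, mul_assoc]
      exact mul_le_mul_of_nonneg_left (growth ω n y) (by positivity)
    refine h1.trans (Finset.sum_le_sum fun j _ => ?_)
    rw [hYs]
    exact ih (n + 1) (Y j)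

lemma F_injective (ω : ℕ → Bool) : Function.Injective (F ω) := by
  intro a b hab
  have h1 : pt (X ω) a = pt (X ω) b := f.injective hab
  have h2 := congrArg Complex.im h1
  rwa [pt_im, pt_im] at h2

lemma var_top (ω : ℕ → Bool) {α β : ℝ} (hab : α < β) : eVariationOn (F ω) (Icc α β) = ⊤ := by
  have hpi := Real.pi_pos
  have hth := th_pos
  obtain ⟨n, hn⟩ := exists_pow_lt_of_lt_one (show 0 < (β - α) / (2 * Real.pi) by
    apply div_pos (by linarith); positivity) (by have := th_lt; linarith : th < 1)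
  rw [lt_div_iff₀ (by positivity)] at hn
  have hD : 0 < ‖F ω (α + 2 * Real.pi * th ^ n) - F ω α‖ := by
    rw [norm_pos_iff, sub_ne_zero]
    intro h
    have := F_injective ω h
    have h2 : 0 < 2 * Real.pi * th ^ n := by positivity
    linarith
  have hmono : eVariationOn (F ω) (Icc α (α + 2 * Real.pi * th ^ n)) ≤
      eVariationOn (F ω) (Icc α β) := eVariationOn.mono _ (Icc_subset_Icc le_rfl (by linarith))
  by_contra hne
  obtain ⟨m, hm⟩ := pow_unbounded_of_one_lt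
    ((eVariationOn (F ω) (Icc α β)).toReal / ‖F ω (α + 2 * Real.pi * th ^ n) - F ω α‖)
    (show (1 : ℝ) < 1 + 1 / 100000 by norm_num)
  rw [div_lt_iff₀ hD] at hm
  have h1 := (var_ge ω m n α).trans hmono
  rw [ENNReal.ofReal_le_iff_le_toReal hne] at h1
  linarith

lemma reparam {η : ℝ → ℝ} {s t : ℝ} (hst : s ≤ t) (hη : ContinuousOn η (Icc s t))
    (hlt : η s < η t) : ∃ φ : ℝ → ℝ, MonotoneOn φ (Icc (η s) (η t)) ∧
      MapsTo φ (Icc (η s) (η t)) (Icc s t) ∧ ∀ y ∈ Icc (η s) (η t), η (φ y) = y := by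
  set A : ℝ → Set ℝ := fun y => {τ | τ ∈ Icc s t ∧ y ≤ η τ} with hA
  have hcl : ∀ y, IsClosed (A y) := by
    intro y
    have := hη.preimage_isClosed_of_isClosed isClosed_Icc (isClosed_Ici (a := y))
    exact this
  have hne : ∀ y ∈ Icc (η s) (η t), (A y).Nonempty := fun y hy => ⟨t, ⟨hst, le_rfl⟩, hy.2⟩
  have hbd : ∀ y, BddBelow (A y) := fun y => ⟨s, fun τ hτ => hτ.1.1⟩
  have hmem : ∀ y ∈ Icc (η s) (η t), sInf (A y) ∈ A y := fun y hy =>
    (hcl y).csInf_mem (hne y hy) (hbd y)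
  refine ⟨fun y => sInf (A y), ?_, fun y hy => (hmem y hy).1, ?_⟩
  · intro y hy y' hy' hyy'
    exact csInf_le_csInf (hbd y) (hne y' hy') (fun τ hτ => ⟨hτ.1, hyy'.trans hτ.2⟩)
  · intro y hy
    obtain ⟨h1, h2⟩ := hmem y hy
    by_contra hcon
    have h3 : y < η (sInf (A y)) := lt_of_le_of_ne h2 (Ne.symm hcon)
    have h4 := intermediate_value_Icc h1.1 (hη.mono (Icc_subset_Icc le_rfl h1.2))
    obtain ⟨τ, hτ, hτy⟩ := h4 ⟨hy.1, h3.le⟩
    have h5 : sInf (A y) ≤ τ := csInf_le (hbd y) ⟨⟨hτ.1, hτ.2.trans h1.2⟩, hτy.ge⟩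
    have h6 : τ = sInf (A y) := le_antisymm hτ.2 h5
    rw [← h6, hτy] at h3
    exact lt_irrefl _ h3

lemma no_curve {γ : ℝ → ℂ} {ω : ℕ → Bool} {η : ℝ → ℝ} (hη : ContinuousOn η (Icc 0 1))
    (hγ : ∀ τ ∈ Icc (0 : ℝ) 1, γ τ = F ω (η τ)) (hv : BoundedVariationOn γ (Icc 0 1)) {s t : ℝ}
    (hs : s ∈ Icc (0 : ℝ) 1) (ht : t ∈ Icc (0 : ℝ) 1) : ¬ η s < η t := by
  intro hlt
  have htop := var_top ω hlt
  have key : ∀ φ : ℝ → ℝ, (MonotoneOn φ (Icc (η s) (η t)) ∨ AntitoneOn φ (Icc (η s) (η t))) →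
      MapsTo φ (Icc (η s) (η t)) (Icc 0 1) → (∀ y ∈ Icc (η s) (η t), η (φ y) = y) → False := by
    intro φ hφ hmaps hinv
    have h1 : eVariationOn (γ ∘ φ) (Icc (η s) (η t)) ≤ eVariationOn γ (Icc 0 1) := by
      rcases hφ with h | h
      · exact eVariationOn.comp_le_of_monotoneOn γ φ h hmaps
      · exact eVariationOn.comp_le_of_antitoneOn γ φ h hmaps
    have h2 : eVariationOn (γ ∘ φ) (Icc (η s) (η t)) = eVariationOn (F ω) (Icc (η s) (η t)) := by
      apply eVariationOn.congr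
      intro y hy
      simp only [Function.comp_apply]
      rw [hγ _ (hmaps hy), hinv y hy]
    rw [h2, htop, top_le_iff] at h1
    exact hv h1
  rcases le_total s t with hst | hst
  · obtain ⟨φ, h1, h2, h3⟩ := reparam hst (hη.mono (Icc_subset_Icc hs.1 ht.2)) hlt
    exact key φ (Or.inl h1) (fun y hy => ⟨hs.1.trans (h2 hy).1, (h2 hy).2.trans ht.2⟩) h3
  · have hc : ContinuousOn (fun τ => η (-τ)) (Icc (-s) (-t)) := by
      apply hη.comp continuousOn_neg
      intro τ hτ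
      constructor
      · show 0 ≤ -τ
        linarith [hτ.2, ht.1]
      · show -τ ≤ 1
        linarith [hτ.1, hs.2]
    obtain ⟨φ, h1, h2, h3⟩ := reparam (η := fun τ => η (-τ)) (neg_le_neg hst) hc (by simpa using hlt)
    simp only [neg_neg] at h1 h2 h3
    refine key (fun y => -φ y) (Or.inr ?_) (fun y hy => ?_) h3
    · intro a ha b hb hab
      exact neg_le_neg (h1 ha hb hab)
    · have := h2 hy
      constructor
      · show 0 ≤ -φ y
        linarith [this.2, ht.1]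
      · show -φ y ≤ 1
        linarith [this.1, hs.2]

theorem main : ∃ f : ℂ ≃ₜ ℂ,
      (∃ H : ℝ, ∀ x : ℂ, ∃ δ > (0 : ℝ), ∀ y z : ℂ,
          dist y x = dist z x → dist y x < δ →
            dist (f y) (f x) ≤ H * dist (f z) (f x)) ∧
      ∃ E : Set ℝ, ¬ E.Countable ∧
        ∀ γ : ℝ → ℂ, ContinuousOn γ (Set.Icc 0 1) →
          BoundedVariationOn γ (Set.Icc 0 1) →
          (∀ t ∈ Set.Icc (0 : ℝ) 1, γ t ∈ f '' {z : ℂ | z.re ∈ E}) →
          ∀ s ∈ Set.Icc (0 : ℝ) 1, ∀ t ∈ Set.Icc (0 : ℝ) 1, γ s = γ t := by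
  refine ⟨f, ⟨4, qc⟩, E, E_uncountable, fun γ hγc hγv hγE s hs t ht => ?_⟩
  set σ : ℝ → ℂ := fun τ => f.symm (γ τ) with hσ
  have hσc : ContinuousOn σ (Icc 0 1) := f.symm.continuous.comp_continuousOn hγc
  have hσE : ∀ τ ∈ Icc (0 : ℝ) 1, (σ τ).re ∈ E := by
    intro τ hτ
    obtain ⟨z, hz, hzτ⟩ := hγE τ hτ
    have : σ τ = z := by simp only [hσ]; rw [← hzτ]; exact f.symm_apply_apply z
    rw [this]; exact hz
  have hre : ContinuousOn (fun τ => (σ τ).re) (Icc 0 1) :=
    Complex.continuous_re.comp_continuousOn hσc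
  have him : ContinuousOn (fun τ => (σ τ).im) (Icc 0 1) :=
    Complex.continuous_im.comp_continuousOn hσc
  have hsub : ((fun τ => (σ τ).re) '' Icc 0 1).Subsingleton := by
    apply E_totallyDisconnected
    · rintro _ ⟨τ, hτ, rfl⟩
      exact hσE τ hτ
    · exact isPreconnected_Icc.image _ hre
  obtain ⟨ω, hω⟩ := hσE s hs
  have hall : ∀ τ ∈ Icc (0 : ℝ) 1, γ τ = F ω ((σ τ).im) := by
    intro τ hτ
    have h1 : (σ τ).re = X ω := by
      rw [hω]
      exact hsub (mem_image_of_mem _ hτ) (mem_image_of_mem _ hs)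
    have h2 : pt (X ω) (σ τ).im = σ τ := by
      rw [← h1]
      exact Complex.re_add_im _
    unfold F
    rw [h2]
    simp only [hσ]
    exact (f.apply_symm_apply _).symm
  have h1 := no_curve him hall hγv hs ht
  have h2 := no_curve him hall hγv ht hs
  have h3 : (σ s).im = (σ t).im := le_antisymm (not_lt.1 h2) (not_lt.1 h1)
  rw [hall s hs, hall t ht, h3]

end Pool.Agent.N283.QL
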